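import Mathlib

set_option autoImplicit false
set_option linter.unusedSectionVars false

namespace Pool.Agent.Lib.MP_86e34a_co

open Finset
open scoped BigOperators

section Avg

variable {V : Type} [Fintype V]

lemma ex_mono {f g : V → ℝ} (h : ∀ x, f x ≤ g x) : 𝔼 x, f x ≤ 𝔼 x, g x :=
  Finset.expect_le_expect (fun i _ => h i)

lemma ex_nonneg {f : V → ℝ} (h : ∀ x, 0 ≤ f x) : 0 ≤ 𝔼 x, f x :=
  Finset.expect_nonneg (fun i _ => h i)

lemma ex_abs (f : V → ℝ) : |𝔼 x, f x| ≤ 𝔼 x, |f x| := Finset.abs_expect_le _ _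

lemma ex_le [Nonempty V] {f : V → ℝ} {a : ℝ} (h : ∀ x, f x ≤ a) : 𝔼 x, f x ≤ a :=
  Finset.expect_le univ_nonempty (fun i _ => h i)

lemma ex_cs (f g : V → ℝ) : (𝔼 x, f x * g x) ^ 2 ≤ (𝔼 x, f x ^ 2) * 𝔼 x, g x ^ 2 :=
  Finset.expect_mul_sq_le_sq_mul_sq _ _ _

lemma ex_abs_le_of_sq [Nonempty V] {f : V → ℝ} {b : ℝ} (hb : 0 ≤ b)
    (h : 𝔼 x, f x ^ 2 ≤ b ^ 2) : 𝔼 x, |f x| ≤ b := by
  have h1 := ex_cs (fun x => |f x|) (fun _ => (1 : ℝ))
  simp only [mul_one, sq_abs, one_pow, Fintype.expect_const] at h1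
  exact (sq_le_sq₀ (ex_nonneg fun x => abs_nonneg _) hb).mp (h1.trans h)

/-- double version of Cauchy-Schwarz for averages. -/
lemma ex2_abs_le_of_sq [Nonempty V] {f : V → V → ℝ} {b : ℝ} (hb : 0 ≤ b)
    (h : 𝔼 z, 𝔼 x, f z x ^ 2 ≤ b ^ 2) : 𝔼 z, 𝔼 x, |f z x| ≤ b := by
  have h2 : ∀ z, (𝔼 x, |f z x|) ^ 2 ≤ 𝔼 x, f z x ^ 2 := by
    intro z
    have h1 := ex_cs (fun x => |f z x|) (fun _ => (1 : ℝ))
    simpa only [mul_one, sq_abs, one_pow, Fintype.expect_const] using h1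
  have h3 := ex_abs_le_of_sq (f := fun z => 𝔼 x, |f z x|) hb ((ex_mono h2).trans h)
  have h4 : ∀ z, |(𝔼 x, |f z x|)| = 𝔼 x, |f z x| := fun z =>
    abs_of_nonneg (ex_nonneg fun x => abs_nonneg _)
  simpa only [h4] using h3

end Avg

section CondExp

variable {V : Type} [Fintype V] {L L' : Type} [DecidableEq L] [DecidableEq L']

/-- the cell of `x`. -/
def cell (π : V → L) (x : V) : Finset V := univ.filter (fun y => π y = π x)

lemma mem_cell (π : V → L) (x y : V) : y ∈ cell π x ↔ π y = π x := by simp [cell]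

lemma cell_pos (π : V → L) (x : V) : 0 < ((cell π x).card : ℝ) := by
  have : x ∈ cell π x := by simp [mem_cell]
  exact_mod_cast card_pos.mpr ⟨x, this⟩

lemma cell_eq {π : V → L} {x y : V} (h : π x = π y) : cell π x = cell π y := by
  simp [cell, h]

/-- the averaging kernel. -/
noncomputable def pr (π : V → L) (x y : V) : ℝ :=
  if π y = π x then ((cell π x).card : ℝ)⁻¹ else 0

/-- conditional expectation. -/
noncomputable def ce (π : V → L) (f : V → ℝ) (x : V) : ℝ := ∑ y, pr π x y * f y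

lemma pr_nonneg (π : V → L) (x y : V) : 0 ≤ pr π x y := by
  unfold pr; split_ifs <;> positivity

lemma pr_symm (π : V → L) (x y : V) : pr π x y = pr π y x := by
  unfold pr
  by_cases h : π y = π x
  · rw [if_pos h, if_pos h.symm, cell_eq h]
  · rw [if_neg h, if_neg (fun h' => h h'.symm)]

lemma pr_sum (π : V → L) (x : V) : ∑ y, pr π x y = 1 := by
  unfold pr
  rw [← Finset.sum_filter, Finset.sum_const, nsmul_eq_mul]
  exact mul_inv_cancel₀ (cell_pos π x).ne'

lemma ce_sub (π : V → L) (f g : V → ℝ) (x : V) :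
    ce π (fun y => f y - g y) x = ce π f x - ce π g x := by
  simp [ce, mul_sub, Finset.sum_sub_distrib]

lemma ce_add (π : V → L) (f g : V → ℝ) (x : V) :
    ce π (fun y => f y + g y) x = ce π f x + ce π g x := by
  simp [ce, mul_add, Finset.sum_add_distrib]

lemma ce_smul (π : V → L) (f : V → ℝ) (a : ℝ) (x : V) :
    ce π (fun y => a * f y) x = a * ce π f x := by
  simp only [ce, Finset.mul_sum]
  exact Finset.sum_congr rfl fun y _ => by ring

lemma ce_const (π : V → L) (a : ℝ) (x : V) : ce π (fun _ => a) x = a := by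
  simp [ce, ← Finset.sum_mul, pr_sum]

lemma ce_mono (π : V → L) {f g : V → ℝ} (h : ∀ y, f y ≤ g y) (x : V) : ce π f x ≤ ce π g x :=
  Finset.sum_le_sum fun y _ => mul_le_mul_of_nonneg_left (h y) (pr_nonneg π x y)

lemma ce_nonneg (π : V → L) {f : V → ℝ} (h : ∀ y, 0 ≤ f y) (x : V) : 0 ≤ ce π f x :=
  Finset.sum_nonneg fun y _ => mul_nonneg (pr_nonneg π x y) (h y)

lemma ce_le (π : V → L) {f : V → ℝ} {a : ℝ} (h : ∀ y, f y ≤ a) (x : V) : ce π f x ≤ a :=
  (ce_mono π h x).trans (ce_const π a x).le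

lemma ce_abs (π : V → L) (f : V → ℝ) (x : V) : |ce π f x| ≤ ce π (fun y => |f y|) x := by
  unfold ce
  refine (Finset.abs_sum_le_sum_abs _ _).trans (Finset.sum_le_sum fun y _ => ?_)
  rw [abs_mul, abs_of_nonneg (pr_nonneg π x y)]

lemma ce_meas (π : V → L) (f : V → ℝ) {x x' : V} (h : π x = π x') : ce π f x = ce π f x' := by
  unfold ce pr
  rw [cell_eq h, h]

lemma ce_of_meas (π : V → L) {g : V → ℝ} {x : V} (h : ∀ y, π y = π x → g y = g x) :
    ce π g x = g x := by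
  have : ∀ y, pr π x y * g y = pr π x y * g x := by
    intro y
    unfold pr
    by_cases h' : π y = π x
    · rw [h y h']
    · simp [h']
  unfold ce
  rw [Finset.sum_congr rfl fun y _ => this y, ← Finset.sum_mul, pr_sum, one_mul]

lemma ce_mul_meas (π : V → L) {f g : V → ℝ} {x : V} (h : ∀ y, π y = π x → g y = g x) :
    ce π (fun y => f y * g y) x = ce π f x * g x := by
  have : ∀ y, pr π x y * (f y * g y) = pr π x y * f y * g x := by
    intro y
    unfold pr
    by_cases h' : π y = π x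
    · rw [h y h']; ring
    · simp [h']
  unfold ce
  rw [Finset.sum_congr rfl fun y _ => this y, ← Finset.sum_mul]

lemma ce_selfadj (π : V → L) (f h : V → ℝ) : 𝔼 x, ce π f x * h x = 𝔼 x, f x * ce π h x := by
  rw [Fintype.expect_eq_sum_div_card, Fintype.expect_eq_sum_div_card]
  congr 1
  unfold ce
  simp only [Finset.sum_mul, Finset.mul_sum]
  rw [Finset.sum_comm]
  refine Finset.sum_congr rfl fun x _ => Finset.sum_congr rfl fun y _ => ?_
  rw [pr_symm π x y]; ring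

lemma ex_ce (π : V → L) (f : V → ℝ) : 𝔼 x, ce π f x = 𝔼 x, f x := by
  have := ce_selfadj π f (fun _ => (1 : ℝ))
  simpa [ce_const] using this

lemma ex_ce_abs (π : V → L) (f : V → ℝ) : 𝔼 x, |ce π f x| ≤ 𝔼 x, |f x| :=
  (ex_mono (ce_abs π f)).trans (ex_ce π _).le

/-- `π'` refines `π`. -/
def Refines (π' : V → L') (π : V → L) : Prop := ∀ x y, π' x = π' y → π x = π y

lemma Refines.refl (π : V → L) : Refines π π := fun _ _ h => h

lemma ce_ce_of_refines {π' : V → L'} {π : V → L} (hr : Refines π' π) (f : V → ℝ) (x : V) :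
    ce π' (ce π f) x = ce π f x :=
  ce_of_meas π' fun y hy => ce_meas π f (hr y x hy)

lemma pyth {π' : V → L'} {π : V → L} (hr : Refines π' π) (f : V → ℝ) :
    𝔼 x, (ce π' f x - ce π f x) ^ 2 = (𝔼 x, ce π' f x ^ 2) - 𝔼 x, ce π f x ^ 2 := by
  have h1 : 𝔼 x, ce π' f x * ce π f x = 𝔼 x, ce π f x * ce π f x := by
    rw [ce_selfadj, ce_selfadj]
    refine Finset.expect_congr rfl fun x _ => ?_
    rw [ce_ce_of_refines hr, ce_ce_of_refines (Refines.refl π)]
  have h2 : ∀ x, (ce π' f x - ce π f x) ^ 2 =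
      ce π' f x ^ 2 - 2 * (ce π' f x * ce π f x) + ce π f x * ce π f x := fun x => by ring
  simp only [h2, Finset.expect_add_distrib, Finset.expect_sub_distrib, ← Finset.mul_expect, h1]
  simp only [sq]
  ring

/-- number of cells bounds the average of `1 / measure`. -/
lemma ex_inv_cell [Nonempty V] (π : V → L) :
    𝔼 x, ((Fintype.card V : ℝ) * ((cell π x).card : ℝ)⁻¹) ≤ (univ.image π).card := by
  have hV : (0 : ℝ) < Fintype.card V := by exact_mod_cast Fintype.card_pos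
  rw [← Finset.mul_expect, Fintype.expect_eq_sum_div_card, mul_div_cancel₀ _ hV.ne']
  rw [← Finset.sum_fiberwise_of_maps_to (s := univ) (t := univ.image π) (g := π)
    (fun x _ => Finset.mem_image_of_mem π (mem_univ x))]
  have : ∀ l ∈ univ.image π, ∑ x ∈ univ.filter (fun x => π x = l), ((cell π x).card : ℝ)⁻¹ = 1 := by
    intro l hl
    obtain ⟨x₀, -, rfl⟩ := Finset.mem_image.mp hl
    have h1 : ∀ x ∈ univ.filter (fun x => π x = π x₀), ((cell π x).card : ℝ)⁻¹ =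
        ((cell π x₀).card : ℝ)⁻¹ := by
      intro x hx
      rw [cell_eq (mem_filter.mp hx).2]
    rw [Finset.sum_congr rfl h1, Finset.sum_const, nsmul_eq_mul]
    exact mul_inv_cancel₀ (cell_pos π x₀).ne'
  rw [Finset.sum_congr rfl this]
  simp

end CondExp

section Sys

variable {V : Type} [Fintype V]

/-- `W` composed with itself. -/
noncomputable def kk (W : V → V → ℝ) (z x : V) : ℝ := 𝔼 u, W z u * W u x

/-- The normalised system. -/
structure IsSys (C Λ₀ : ℝ) (W : V → V → ℝ) (e : V → V → V → ℝ) : Prop where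
  ne : Nonempty V
  W_nonneg : ∀ x y, 0 ≤ W x y
  W_symm : ∀ x y, W x y = W y x
  W_row : ∀ x, 𝔼 y, W x y ≤ Λ₀
  e_nonneg : ∀ z x y, 0 ≤ e z x y
  e_symm : ∀ z x y, e z x y = e z y x
  e_row : ∀ z x, 𝔼 y, e z x y = kk W z x
  e_cell : ∀ (P : V → Prop) [DecidablePred P], ∀ x y,
    𝔼 z, (if P z then e z x y else 0) ≤ Λ₀ * W x y
  e_int : 𝔼 z, 𝔼 x, 𝔼 y, e z x y * (kk W z x * kk W z y) ≤ C
  k_tot : 1 ≤ 𝔼 z, 𝔼 x, kk W z x

variable {C Λ₀ : ℝ} {W : V → V → ℝ} {e : V → V → V → ℝ}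

lemma IsSys.k_nonneg (h : IsSys C Λ₀ W e) (z x : V) : 0 ≤ kk W z x :=
  ex_nonneg fun _ => mul_nonneg (h.W_nonneg _ _) (h.W_nonneg _ _)

lemma IsSys.k_symm (h : IsSys C Λ₀ W e) (z x : V) : kk W z x = kk W x z := by
  unfold kk
  refine Finset.expect_congr rfl fun u _ => ?_
  rw [h.W_symm z u, h.W_symm u x]; ring

lemma IsSys.Λ₀_nonneg (h : IsSys C Λ₀ W e) : 0 ≤ Λ₀ := by
  obtain ⟨x⟩ := h.ne
  exact (ex_nonneg fun y => h.W_nonneg x y).trans (h.W_row x)

lemma IsSys.k_row (h : IsSys C Λ₀ W e) (z : V) : 𝔼 x, kk W z x ≤ Λ₀ ^ 2 := by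
  have := h.ne
  unfold kk
  rw [Finset.expect_comm]
  simp only [← Finset.mul_expect]
  calc 𝔼 u, W z u * 𝔼 x, W u x ≤ 𝔼 u, W z u * Λ₀ :=
        ex_mono fun u => mul_le_mul_of_nonneg_left (h.W_row u) (h.W_nonneg z u)
    _ = (𝔼 u, W z u) * Λ₀ := by rw [Finset.expect_mul]
    _ ≤ Λ₀ * Λ₀ := mul_le_mul_of_nonneg_right (h.W_row z) h.Λ₀_nonneg
    _ = Λ₀ ^ 2 := by ring

lemma IsSys.tail (h : IsSys C Λ₀ W e) {Λ τ : ℝ} (hΛ : 0 < Λ) (hτ : 0 < τ) :
    𝔼 z, 𝔼 x, (kk W z x - min (kk W z x) Λ) ≤ τ + C / (Λ * τ) := by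
  have hne := h.ne
  have hk := h.k_nonneg
  have hpt : ∀ z x, kk W z x - min (kk W z x) Λ ≤
      𝔼 y, (e z x y * (if kk W z y ≤ τ then 1 else 0) +
        (Λ * τ)⁻¹ * (e z x y * (kk W z x * kk W z y))) := by
    intro z x
    have hnn : ∀ y, 0 ≤ e z x y * (if kk W z y ≤ τ then 1 else 0) +
        (Λ * τ)⁻¹ * (e z x y * (kk W z x * kk W z y)) := by
      intro y
      have h1 := h.e_nonneg z x y
      have h2 := hk z x
      have h3 := hk z y
      split_ifs <;> positivity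
    rcases le_or_gt (kk W z x) Λ with hle | hgt
    · rw [min_eq_left hle, sub_self]
      exact ex_nonneg hnn
    · have h1 : kk W z x - min (kk W z x) Λ ≤ kk W z x := by
        rw [min_eq_right hgt.le]; linarith
      refine h1.trans ((h.e_row z x).ge.trans ?_)
      refine ex_mono fun y => ?_
      have h1 := h.e_nonneg z x y
      have h3 := hk z y
      split_ifs with hy
      · have : 0 ≤ (Λ * τ)⁻¹ * (e z x y * (kk W z x * kk W z y)) := by
          have h2 := hk z x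
          positivity
        linarith
      · push Not at hy
        have h4 : Λ * τ ≤ kk W z x * kk W z y :=
          mul_le_mul hgt.le hy.le hτ.le (hk z x)
        have h5 : 1 ≤ (Λ * τ)⁻¹ * (kk W z x * kk W z y) := by
          rw [inv_mul_eq_div, one_le_div (by positivity)]; exact h4
        calc e z x y = e z x y * 1 := by ring
          _ ≤ e z x y * ((Λ * τ)⁻¹ * (kk W z x * kk W z y)) :=
              mul_le_mul_of_nonneg_left h5 h1
          _ = _ := by ring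
  calc 𝔼 z, 𝔼 x, (kk W z x - min (kk W z x) Λ)
      ≤ 𝔼 z, 𝔼 x, 𝔼 y, (e z x y * (if kk W z y ≤ τ then 1 else 0) +
        (Λ * τ)⁻¹ * (e z x y * (kk W z x * kk W z y))) :=
        ex_mono fun z => ex_mono fun x => hpt z x
    _ = (𝔼 z, 𝔼 x, 𝔼 y, e z x y * (if kk W z y ≤ τ then 1 else 0)) +
        (Λ * τ)⁻¹ * 𝔼 z, 𝔼 x, 𝔼 y, e z x y * (kk W z x * kk W z y) := by
        simp only [Finset.expect_add_distrib, Finset.mul_expect]
    _ ≤ τ + (Λ * τ)⁻¹ * C := by
        refine add_le_add ?_ (mul_le_mul_of_nonneg_left h.e_int (by positivity))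
        refine ex_le fun z => ?_
        rw [Finset.expect_comm]
        refine ex_le fun y => ?_
        rw [← Finset.expect_mul]
        have : 𝔼 x, e z x y = kk W z y := by
          rw [← h.e_row z y]
          exact Finset.expect_congr rfl fun x _ => h.e_symm z x y
        rw [this]
        split_ifs with hy
        · linarith
        · linarith
    _ = τ + C / (Λ * τ) := by ring

section Good

variable [DecidableEq V] {L : Type} [DecidableEq L]

/-- indicator function. -/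
noncomputable def ind (S : Finset V) (x : V) : ℝ := if x ∈ S then 1 else 0

lemma ind_nonneg (S : Finset V) (x : V) : 0 ≤ ind S x := by unfold ind; split_ifs <;> norm_num

lemma ind_le (S : Finset V) (x : V) : ind S x ≤ 1 := by unfold ind; split_ifs <;> norm_num

/-- the partition is `η`-good. -/
def Good (W : V → V → ℝ) (π : V → L) (η : ℝ) : Prop :=
  ∀ S : Finset V, 𝔼 x, (𝔼 y, W x y * (ind S y - ce π (ind S) y)) ^ 2 ≤ η ^ 2

/-- the functional. -/
noncomputable def Phi (W : V → V → ℝ) (π : V → L) (f : V → ℝ) : ℝ :=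
  𝔼 x, (𝔼 y, W x y * (f y - ce π f y)) ^ 2

lemma phi_convex (W : V → V → ℝ) (π : V → L) : ConvexOn ℝ Set.univ (Phi W π) := by
  refine ⟨convex_univ, fun f _ g _ a b ha hb hab => ?_⟩
  have h1 : ∀ x, 𝔼 y, W x y * ((a • f + b • g) y - ce π (a • f + b • g) y) =
      a * (𝔼 y, W x y * (f y - ce π f y)) + b * 𝔼 y, W x y * (g y - ce π g y) := by
    intro x
    rw [Finset.mul_expect, Finset.mul_expect, ← Finset.expect_add_distrib]
    refine Finset.expect_congr rfl fun y _ => ?_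
    have h2 : ce π (a • f + b • g) y = a * ce π f y + b * ce π g y := by
      rw [← ce_smul, ← ce_smul, ← ce_add]; rfl
    rw [h2]
    simp only [Pi.add_apply, Pi.smul_apply, smul_eq_mul]
    ring
  unfold Phi
  simp only [h1, smul_eq_mul]
  rw [Finset.mul_expect, Finset.mul_expect, ← Finset.expect_add_distrib]
  refine ex_mono fun x => ?_
  set u := 𝔼 y, W x y * (f y - ce π f y)
  set v := 𝔼 y, W x y * (g y - ce π g y)
  have hb' : b = 1 - a := by linarith
  nlinarith [mul_nonneg (mul_nonneg ha hb) (sq_nonneg (u - v))]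

lemma good_fun_one {W : V → V → ℝ} {π : V → L} {η : ℝ} (hg : Good W π η) {f : V → ℝ}
    (hf : ∀ x, 0 ≤ f x ∧ f x ≤ 1) : Phi W π f ≤ η ^ 2 := by
  have hmem : f ∈ convexHull ℝ (Set.univ.pi (fun _ : V => ({0, 1} : Set ℝ))) := by
    rw [convexHull_pi]
    intro x _
    simp only [convexHull_pair, segment_eq_Icc (zero_le_one' ℝ)]
    exact ⟨(hf x).1, (hf x).2⟩
  obtain ⟨g, hg1, hg2⟩ := (phi_convex W π).exists_ge_of_mem_convexHull (Set.subset_univ _) hmem
  refine hg2.trans ?_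
  have : g = ind (univ.filter (fun x => g x = 1)) := by
    funext x
    have hx := hg1 x (Set.mem_univ x)
    simp only [Set.mem_insert_iff, Set.mem_singleton_iff] at hx
    unfold ind
    simp only [mem_filter, mem_univ, true_and]
    rcases hx with hx | hx <;> simp [hx]
  rw [this]
  exact hg _

lemma good_fun {W : V → V → ℝ} {π : V → L} {η B : ℝ} (hB : 0 < B) (hg : Good W π η) {f : V → ℝ}
    (hf : ∀ x, 0 ≤ f x ∧ f x ≤ B) :
    𝔼 x, (𝔼 y, W x y * (f y - ce π f y)) ^ 2 ≤ (B * η) ^ 2 := by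
  have h1 := good_fun_one hg (f := fun x => B⁻¹ * f x) (fun x => by
    constructor
    · have := (hf x).1; positivity
    · rw [inv_mul_eq_div, div_le_one hB]; exact (hf x).2)
  unfold Phi at h1
  have h2 : ∀ x, 𝔼 y, W x y * (f y - ce π f y) =
      B * 𝔼 y, W x y * (B⁻¹ * f y - ce π (fun x => B⁻¹ * f x) y) := by
    intro x
    rw [Finset.mul_expect]
    refine Finset.expect_congr rfl fun y _ => ?_
    rw [ce_smul]
    field_simp
  simp only [h2, mul_pow]
  rw [← Finset.mul_expect]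
  exact mul_le_mul_of_nonneg_left h1 (by positivity)

lemma good_fun_abs {W : V → V → ℝ} {π : V → L} {η B : ℝ} [Nonempty V] (hB : 0 < B) (hη : 0 ≤ η)
    (hg : Good W π η) {f : V → ℝ} (hf : ∀ x, 0 ≤ f x ∧ f x ≤ B) :
    𝔼 x, |𝔼 y, W x y * (f y - ce π f y)| ≤ B * η :=
  ex_abs_le_of_sq (by positivity) (good_fun hB hg hf)

lemma good_sign {W : V → V → ℝ} {π : V → L} {η : ℝ} [Nonempty V] (hη : 0 ≤ η)
    (hg : Good W π η) {f : V → ℝ} (hf : ∀ x, |f x| ≤ 1) :
    𝔼 x, |𝔼 y, W x y * (f y - ce π f y)| ≤ 2 * η := by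
  have h1 := good_fun_abs one_pos hη hg (f := fun x => (f x + 1) / 2) (fun x => by
    have := abs_le.mp (hf x)
    constructor <;> linarith [this.1, this.2])
  have h2 : ∀ x, 𝔼 y, W x y * (f y - ce π f y) =
      2 * 𝔼 y, W x y * ((f y + 1) / 2 - ce π (fun x => (f x + 1) / 2) y) := by
    intro x
    rw [Finset.mul_expect]
    refine Finset.expect_congr rfl fun y _ => ?_
    have h3 : ce π (fun x => (f x + 1) / 2) y = (ce π f y + 1) / 2 := by
      have : (fun x => (f x + 1) / 2) = fun x => (1 / 2 : ℝ) * f x + 1 / 2 := by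
        funext x; ring
      rw [this, ce_add, ce_smul, ce_const]; ring
    rw [h3]; ring
  simp only [h2, abs_mul, abs_two]
  rw [← Finset.mul_expect]
  linarith

lemma IsSys.LA (h : IsSys C Λ₀ W e) {π : V → L} {η : ℝ} (hη : 0 ≤ η) (hg : Good W π η)
    (S : Finset V) :
    𝔼 z, |ce π (fun z => 𝔼 x, kk W z x * ind S x) z - 𝔼 x, kk W z x * ind S x| ≤
      2 * η * Λ₀ := by
  have hne := h.ne
  set F : V → ℝ := fun z => 𝔼 x, kk W z x * ind S x with hF
  set s : V → ℝ := fun z => SignType.sign (ce π F z - F z) with hs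
  have hs1 : ∀ z, |s z| ≤ 1 := by
    intro z
    simp only [hs]
    rcases lt_trichotomy (ce π F z - F z) 0 with h' | h' | h'
    · rw [sign_neg h']; simp
    · rw [h']; simp
    · rw [sign_pos h']; simp
  have h1 : ∀ z, |ce π F z - F z| = s z * (ce π F z - F z) := by
    intro z
    simp only [hs]
    exact (sign_mul_self _).symm
  have hFu : ∀ z, F z = 𝔼 u, W u z * 𝔼 x, W u x * ind S x := by
    intro z
    simp only [hF, kk, Finset.expect_mul, Finset.mul_expect]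
    rw [Finset.expect_comm]
    refine Finset.expect_congr rfl fun u _ => Finset.expect_congr rfl fun x _ => ?_
    rw [h.W_symm z u]; ring
  have hwb : ∀ u, |𝔼 x, W u x * ind S x| ≤ Λ₀ := by
    intro u
    rw [abs_of_nonneg (ex_nonneg fun x => mul_nonneg (h.W_nonneg _ _) (ind_nonneg _ _))]
    refine (ex_mono fun x => ?_).trans (h.W_row u)
    exact mul_le_of_le_one_right (h.W_nonneg _ _) (ind_le _ _)
  calc 𝔼 z, |ce π F z - F z| = 𝔼 z, s z * (ce π F z - F z) := by simp only [h1]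
    _ = 𝔼 z, -((s z - ce π s z) * F z) := by
        simp only [mul_sub, sub_mul, neg_sub, Finset.expect_sub_distrib]
        rw [← ce_selfadj π s F]
    _ = 𝔼 u, -((𝔼 z, W u z * (s z - ce π s z)) * 𝔼 x, W u x * ind S x) := by
        simp only [hFu, Finset.expect_neg_distrib]
        congr 1
        simp only [Finset.mul_expect, Finset.expect_mul]
        rw [Finset.expect_comm]
        refine Finset.expect_congr rfl fun u _ => ?_
        rw [Finset.expect_comm]
        refine Finset.expect_congr rfl fun z _ => Finset.expect_congr rfl fun x _ => ?_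
        ring
    _ ≤ 𝔼 u, |𝔼 z, W u z * (s z - ce π s z)| * Λ₀ := by
        refine ex_mono fun u => ?_
        refine (neg_le_abs _).trans ?_
        rw [abs_mul]
        exact mul_le_mul_of_nonneg_left (hwb u) (abs_nonneg _)
    _ = (𝔼 u, |𝔼 z, W u z * (s z - ce π s z)|) * Λ₀ := by rw [Finset.expect_mul]
    _ ≤ 2 * η * Λ₀ := mul_le_mul_of_nonneg_right (good_sign hη hg hs1) h.Λ₀_nonneg

/-- labels given by a family of sets. -/
def lab (𝒮 : Finset (Finset V)) (x : V) : Finset (Finset V) := 𝒮.filter (fun S => x ∈ S)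

lemma lab_refines {𝒮 𝒮' : Finset (Finset V)} (h : 𝒮 ⊆ 𝒮') : Refines (lab 𝒮') (lab 𝒮) := by
  intro x y hxy
  unfold lab at *
  ext S
  simp only [mem_filter]
  have := Finset.ext_iff.mp hxy S
  simp only [mem_filter] at this
  constructor
  · rintro ⟨h1, h2⟩
    exact ⟨h1, (this.mp ⟨h h1, h2⟩).2⟩
  · rintro ⟨h1, h2⟩
    exact ⟨h1, (this.mpr ⟨h h1, h2⟩).2⟩

lemma lab_cells (𝒮 : Finset (Finset V)) : (univ.image (lab 𝒮)).card ≤ 2 ^ 𝒮.card := by
  rw [← Finset.card_powerset]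
  refine card_le_card fun l hl => ?_
  obtain ⟨x, -, rfl⟩ := Finset.mem_image.mp hl
  exact mem_powerset.mpr (filter_subset _ _)

/-- energy of a kernel on a partition. -/
noncomputable def energy (K : V → V → ℝ) (π : V → L) : ℝ := 𝔼 z, 𝔼 x, ce π (K z) x ^ 2

lemma energy_pyth {L' : Type} [DecidableEq L'] {π' : V → L'} {π : V → L} (hr : Refines π' π)
    (K : V → V → ℝ) :
    𝔼 z, 𝔼 x, (ce π' (K z) x - ce π (K z) x) ^ 2 = energy K π' - energy K π := by
  unfold energy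
  simp only [pyth hr, Finset.expect_sub_distrib]

lemma energy_nonneg (K : V → V → ℝ) (π : V → L) : 0 ≤ energy K π :=
  ex_nonneg fun _ => ex_nonneg fun _ => sq_nonneg _

lemma energy_le [Nonempty V] {K : V → V → ℝ} {Λ : ℝ} (h0 : ∀ z x, 0 ≤ K z x)
    (h1 : ∀ z x, K z x ≤ Λ) (π : V → L) : energy K π ≤ Λ ^ 2 :=
  ex_le fun z => ex_le fun x =>
    pow_le_pow_left₀ (ce_nonneg π (h0 z) x) (ce_le π (h1 z) x) 2

/-- the truncated kernel. -/
noncomputable def tk (W : V → V → ℝ) (Λ : ℝ) (z x : V) : ℝ := min (kk W z x) Λ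

lemma IsSys.tk_nonneg (h : IsSys C Λ₀ W e) {Λ : ℝ} (hΛ : 0 ≤ Λ) (z x : V) : 0 ≤ tk W Λ z x :=
  le_min (h.k_nonneg z x) hΛ

lemma tk_le (W : V → V → ℝ) (Λ : ℝ) (z x : V) : tk W Λ z x ≤ Λ := min_le_right _ _

lemma tk_le_kk (W : V → V → ℝ) (Λ : ℝ) (z x : V) : tk W Λ z x ≤ kk W z x := min_le_left _ _

lemma IsSys.tk_symm (h : IsSys C Λ₀ W e) (Λ : ℝ) (z x : V) : tk W Λ z x = tk W Λ x z := by
  unfold tk; rw [h.k_symm]

lemma IsSys.increment (h : IsSys C Λ₀ W e) {Λ η : ℝ} 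
    (ht : 𝔼 z, 𝔼 x, (kk W z x - tk W Λ z x) ≤ η ^ 2 / 2) (𝒮 : Finset (Finset V))
    (hng : ¬ Good W (lab 𝒮) η) :
    ∃ S : Finset V, energy (tk W Λ) (lab 𝒮) + (η ^ 2 / 2) ^ 2 ≤
      energy (tk W Λ) (lab (insert S 𝒮)) := by
  have hne := h.ne
  unfold Good at hng
  push Not at hng
  obtain ⟨S, hS⟩ := hng
  refine ⟨S, ?_⟩
  set π := lab 𝒮 with hπ
  set π' := lab (insert S 𝒮) with hπ'
  have hr : Refines π' π := lab_refines (subset_insert _ _)
  set g : V → ℝ := fun y => ind S y - ce π (ind S) y with hg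
  have hg1 : ∀ y, |g y| ≤ 1 := by
    intro y
    have h1 := ind_nonneg S y
    have h2 := ind_le S y
    have h3 := ce_nonneg π (ind_nonneg S) y
    have h4 := ce_le π (ind_le S) y
    rw [abs_le]
    constructor <;> simp only [hg] <;> linarith
  have hgm : ∀ x, ce π' g x = g x := by
    intro x
    refine ce_of_meas π' fun y hy => ?_
    have h1 : ce π (ind S) y = ce π (ind S) x := ce_meas π _ (hr y x hy)
    have h2 : ind S y = ind S x := by
      have := Finset.ext_iff.mp hy S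
      simp only [hπ', lab, mem_filter, mem_insert, true_or, true_and] at this
      unfold ind
      by_cases hx : x ∈ S
      · rw [if_pos hx, if_pos (this.mpr hx)]
      · rw [if_neg hx, if_neg (fun h' => hx (this.mp h'))]
    simp only [hg, h1, h2]
  have hg0 : ∀ x, ce π g x = 0 := by
    intro x
    simp only [hg]
    rw [ce_sub, ce_ce_of_refines (Refines.refl π)]
    ring
  have e1 : 𝔼 u, (𝔼 y, W u y * g y) ^ 2 = 𝔼 z, g z * 𝔼 x, kk W z x * g x := by
    simp only [kk, Finset.mul_expect, Finset.expect_mul, sq]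
    rw [Finset.expect_comm]
    refine Finset.expect_congr rfl fun z _ => ?_
    rw [Finset.expect_comm]
    refine Finset.expect_congr rfl fun x _ => Finset.expect_congr rfl fun u _ => ?_
    rw [h.W_symm z u]; ring
  have e2 : 𝔼 z, g z * 𝔼 x, kk W z x * g x ≤
      (𝔼 z, g z * 𝔼 x, tk W Λ z x * g x) + 𝔼 z, 𝔼 x, (kk W z x - tk W Λ z x) := by
    rw [← Finset.expect_add_distrib]
    refine ex_mono fun z => ?_
    rw [Finset.mul_expect, Finset.mul_expect, ← Finset.expect_add_distrib]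
    refine ex_mono fun x => ?_
    have h1 : g z * g x ≤ 1 := by
      refine (le_abs_self _).trans ?_
      rw [abs_mul]
      calc |g z| * |g x| ≤ 1 * 1 := mul_le_mul (hg1 z) (hg1 x) (abs_nonneg _) zero_le_one
        _ = 1 := one_mul 1
    nlinarith [tk_le_kk W Λ z x]
  have e3 : ∀ z, 𝔼 x, tk W Λ z x * g x =
      𝔼 x, (ce π' (tk W Λ z) x - ce π (tk W Λ z) x) * g x := by
    intro z
    simp only [sub_mul, Finset.expect_sub_distrib]
    rw [ce_selfadj, ce_selfadj]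
    simp only [hgm, hg0, mul_zero, Finset.expect_const_zero, sub_zero]
  have e4 : 𝔼 z, g z * 𝔼 x, tk W Λ z x * g x ≤
      𝔼 z, 𝔼 x, |ce π' (tk W Λ z) x - ce π (tk W Λ z) x| := by
    refine ex_mono fun z => ?_
    rw [e3 z, Finset.mul_expect]
    refine ex_mono fun x => ?_
    refine (le_abs_self _).trans ?_
    rw [abs_mul, abs_mul]
    calc |g z| * (|ce π' (tk W Λ z) x - ce π (tk W Λ z) x| * |g x|)
        ≤ 1 * (|ce π' (tk W Λ z) x - ce π (tk W Λ z) x| * 1) := by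
          refine mul_le_mul (hg1 z) ?_ (by positivity) zero_le_one
          exact mul_le_mul_of_nonneg_left (hg1 x) (abs_nonneg _)
      _ = _ := by ring
  have e5 : ¬ (energy (tk W Λ) π' - energy (tk W Λ) π ≤ (η ^ 2 / 2) ^ 2) := by
    intro hcon
    rw [← energy_pyth hr] at hcon
    have := ex2_abs_le_of_sq (by positivity) hcon
    linarith
  push Not at e5
  linarith

lemma IsSys.good_refine (h : IsSys C Λ₀ W e) {Λ η : ℝ} (hΛ : 0 ≤ Λ)
    (ht : 𝔼 z, 𝔼 x, (kk W z x - tk W Λ z x) ≤ η ^ 2 / 2) {N : ℕ}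
    (hN : Λ ^ 2 < N * (η ^ 2 / 2) ^ 2) (𝒮 : Finset (Finset V)) :
    ∃ 𝒮' : Finset (Finset V), 𝒮 ⊆ 𝒮' ∧ 𝒮'.card ≤ 𝒮.card + N ∧ Good W (lab 𝒮') η := by
  have hne := h.ne
  have key : ∀ j : ℕ, (∃ 𝒮' : Finset (Finset V), 𝒮 ⊆ 𝒮' ∧ 𝒮'.card ≤ 𝒮.card + j ∧
      Good W (lab 𝒮') η) ∨ (∃ 𝒮' : Finset (Finset V), 𝒮 ⊆ 𝒮' ∧ 𝒮'.card ≤ 𝒮.card + j ∧
      energy (tk W Λ) (lab 𝒮) + j * (η ^ 2 / 2) ^ 2 ≤ energy (tk W Λ) (lab 𝒮')) := by
    intro j
    induction j with
    | zero => exact Or.inr ⟨𝒮, Subset.refl _, by simp, by simp⟩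
    | succ j ih =>
      rcases ih with ⟨𝒮', h1, h2, h3⟩ | ⟨𝒮', h1, h2, h3⟩
      · exact Or.inl ⟨𝒮', h1, by omega, h3⟩
      · by_cases hg : Good W (lab 𝒮') η
        · exact Or.inl ⟨𝒮', h1, by omega, hg⟩
        · obtain ⟨S, hS⟩ := h.increment ht 𝒮' hg
          refine Or.inr ⟨insert S 𝒮', h1.trans (subset_insert _ _), ?_, ?_⟩
          · have := Finset.card_insert_le S 𝒮'
            omega
          · push_cast
            linarith
  rcases key N with ⟨𝒮', h1, h2, h3⟩ | ⟨𝒮', h1, h2, h3⟩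
  · exact ⟨𝒮', h1, h2, h3⟩
  · exfalso
    have h4 := energy_le (h.tk_nonneg hΛ) (tk_le W Λ) (lab 𝒮')
    have h5 := energy_nonneg (tk W Λ) (lab 𝒮)
    linarith

end Good

section Kernels

variable {L L' : Type} [DecidableEq L] [DecidableEq L']

/-- averaging in the first coordinate. -/
noncomputable def E1 (π : V → L) (K : V → V → ℝ) (z x : V) : ℝ := ce π (fun z' => K z' x) z

/-- averaging in the second coordinate. -/
noncomputable def E2 (π : V → L) (K : V → V → ℝ) (z x : V) : ℝ := ce π (K z) x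

/-- `L¹` norm. -/
noncomputable def N1 (K : V → V → ℝ) : ℝ := 𝔼 z, 𝔼 x, |K z x|

lemma N1_E1 (π : V → L) (K : V → V → ℝ) : N1 (E1 π K) ≤ N1 K := by
  unfold N1 E1
  rw [Finset.expect_comm]
  conv_rhs => rw [Finset.expect_comm]
  exact ex_mono fun x => ex_ce_abs π _

lemma N1_E2 (π : V → L) (K : V → V → ℝ) : N1 (E2 π K) ≤ N1 K :=
  ex_mono fun _ => ex_ce_abs π _

lemma E1_sub (π : V → L) (K K' : V → V → ℝ) :
    E1 π (fun z x => K z x - K' z x) = fun z x => E1 π K z x - E1 π K' z x := by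
  funext z x; exact ce_sub π _ _ z

lemma E2_sub (π : V → L) (K K' : V → V → ℝ) :
    E2 π (fun z x => K z x - K' z x) = fun z x => E2 π K z x - E2 π K' z x := by
  funext z x; exact ce_sub π _ _ x

lemma E1_E2 (π : V → L) (π' : V → L') (K : V → V → ℝ) :
    E1 π (E2 π' K) = E2 π' (E1 π K) := by
  funext z x
  unfold E1 E2 ce
  simp only [Finset.mul_sum]
  rw [Finset.sum_comm]
  refine Finset.sum_congr rfl fun y _ => Finset.sum_congr rfl fun w _ => ?_
  ring

lemma N1_nonneg (K : V → V → ℝ) : 0 ≤ N1 K := ex_nonneg fun _ => ex_nonneg fun _ => abs_nonneg _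

lemma N1_tri (K K' K'' : V → V → ℝ) :
    N1 (fun z x => K z x - K'' z x) ≤
      N1 (fun z x => K z x - K' z x) + N1 (fun z x => K' z x - K'' z x) := by
  unfold N1
  simp only [← Finset.expect_add_distrib]
  exact ex_mono fun z => ex_mono fun x => abs_sub_le _ _ _

lemma N1_swap (K K' : V → V → ℝ) :
    N1 (fun z x => K z x - K' z x) = N1 (fun z x => K' z x - K z x) := by
  unfold N1
  refine Finset.expect_congr rfl fun z _ => Finset.expect_congr rfl fun x _ => ?_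
  rw [abs_sub_comm]

lemma N1_symm_E1 (π : V → L) (π' : V → L') {K : V → V → ℝ} (hK : ∀ z x, K z x = K x z) :
    N1 (fun z x => E1 π K z x - E1 π' K z x) = N1 (fun z x => E2 π K z x - E2 π' K z x) := by
  unfold N1
  rw [Finset.expect_comm]
  refine Finset.expect_congr rfl fun z _ => Finset.expect_congr rfl fun x _ => ?_
  have h1 : (fun z' => K z' z) = K z := by funext z'; exact hK z' z
  simp only [E1, E2, h1]

variable [DecidableEq V]

lemma ce_eq [Nonempty V] (π : V → L) (f : V → ℝ) (x : V) :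
    ce π f x = ((Fintype.card V : ℝ) * ((cell π x).card : ℝ)⁻¹) *
      𝔼 y, f y * ind (cell π x) y := by
  have hV : (0 : ℝ) < Fintype.card V := by exact_mod_cast Fintype.card_pos
  rw [Fintype.expect_eq_sum_div_card]
  have : ce π f x = ((cell π x).card : ℝ)⁻¹ * ∑ y, f y * ind (cell π x) y := by
    unfold ce
    rw [Finset.mul_sum]
    refine Finset.sum_congr rfl fun y _ => ?_
    unfold pr ind
    simp only [mem_cell]
    split_ifs <;> ring
  rw [this]
  field_simp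

lemma IsSys.T4 (h : IsSys C Λ₀ W e) {η M : ℝ} (hη : 0 ≤ η) {π : V → L} {π' : V → L'}
    (hM : ((univ.image π).card : ℝ) ≤ M) (hg : Good W π' η) :
    N1 (fun z x => E1 π' (E2 π (kk W)) z x - E2 π (kk W) z x) ≤ 2 * η * Λ₀ * M := by
  have hne := h.ne
  unfold N1
  rw [Finset.expect_comm]
  have h1 : ∀ x, 𝔼 z, |E1 π' (E2 π (kk W)) z x - E2 π (kk W) z x| ≤
      (2 * η * Λ₀) * ((Fintype.card V : ℝ) * ((cell π x).card : ℝ)⁻¹) := by
    intro x
    set c : ℝ := (Fintype.card V : ℝ) * ((cell π x).card : ℝ)⁻¹ with hc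
    have hc0 : 0 ≤ c := by positivity
    set F : V → ℝ := fun z => 𝔼 y, kk W z y * ind (cell π x) y with hF
    have h2 : (fun z => E2 π (kk W) z x) = fun z => c * F z := by
      funext z
      exact ce_eq π (kk W z) x
    have h3 : ∀ z, E1 π' (E2 π (kk W)) z x - E2 π (kk W) z x = c * (ce π' F z - F z) := by
      intro z
      unfold E1
      rw [h2, ce_smul]
      have : E2 π (kk W) z x = c * F z := congrFun h2 z
      rw [this]; ring
    simp only [h3, abs_mul, abs_of_nonneg hc0]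
    rw [← Finset.mul_expect, mul_comm]
    exact mul_le_mul_of_nonneg_right (h.LA hη hg _) hc0
  refine (ex_mono h1).trans ?_
  rw [← Finset.mul_expect]
  refine mul_le_mul_of_nonneg_left ((ex_inv_cell π).trans hM) ?_
  have := h.Λ₀_nonneg
  positivity

lemma IsSys.boundX (h : IsSys C Λ₀ W e) {Λ η θ δ M : ℝ} (hη : 0 ≤ η)
    (ht : 𝔼 z, 𝔼 x, (kk W z x - tk W Λ z x) ≤ θ)
    {π : V → L} {π' : V → L'} 
    (hM : ((univ.image π).card : ℝ) ≤ M) (hg : Good W π' η)
    (hδ : N1 (fun z x => E2 π' (tk W Λ) z x - E2 π (tk W Λ) z x) ≤ δ) :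
    N1 (fun z x => E2 π' (E1 π (tk W Λ)) z x - E2 π' (tk W Λ) z x) ≤
      3 * δ + 2 * θ + 2 * η * Λ₀ * M := by
  set K := tk W Λ with hK
  have hKs : ∀ z x, K z x = K x z := h.tk_symm Λ
  have hθ : N1 (fun z x => kk W z x - K z x) ≤ θ := by
    unfold N1
    refine le_trans (le_of_eq ?_) ht
    refine Finset.expect_congr rfl fun z _ => Finset.expect_congr rfl fun x _ => ?_
    exact abs_of_nonneg (sub_nonneg.mpr (tk_le_kk W Λ z x))
  have T1 : N1 (fun z x => E2 π' (E1 π K) z x - E2 π (E1 π K) z x) ≤ δ := by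
    rw [← E1_E2, ← E1_E2, ← E1_sub]
    exact (N1_E1 π _).trans hδ
  have T2 : N1 (fun z x => E2 π (E1 π K) z x - E1 π' (E2 π K) z x) ≤ δ := by
    rw [E1_E2 π' π, ← E2_sub]
    refine (N1_E2 π _).trans ?_
    rw [N1_swap, N1_symm_E1 π' π hKs]
    exact hδ
  have T3 : N1 (fun z x => E1 π' (E2 π K) z x - E1 π' (E2 π (kk W)) z x) ≤ θ := by
    rw [← E1_sub, ← E2_sub]
    refine (N1_E1 π' _).trans ((N1_E2 π _).trans ?_)
    rw [N1_swap]
    exact hθ
  have T4 := h.T4 hη hM hg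
  have T5 : N1 (fun z x => E2 π (kk W) z x - E2 π K z x) ≤ θ := by
    rw [← E2_sub]
    exact (N1_E2 π _).trans hθ
  have T6 : N1 (fun z x => E2 π K z x - E2 π' K z x) ≤ δ := by
    rw [N1_swap]; exact hδ
  have A1 := N1_tri (E2 π' (E1 π K)) (E2 π (E1 π K)) (E2 π' K)
  have A2 := N1_tri (E2 π (E1 π K)) (E1 π' (E2 π K)) (E2 π' K)
  have A3 := N1_tri (E1 π' (E2 π K)) (E1 π' (E2 π (kk W))) (E2 π' K)
  have A4 := N1_tri (E1 π' (E2 π (kk W))) (E2 π (kk W)) (E2 π' K)
  have A5 := N1_tri (E2 π (kk W)) (E2 π K) (E2 π' K)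
  linarith

/-- step (a). -/
lemma IsSys.stepA (h : IsSys C Λ₀ W e) {Λ η : ℝ} (hΛ : 0 < Λ) (hη : 0 ≤ η) {π' : V → L'}
    (hg : Good W π' η) :
    (𝔼 z, 𝔼 x, 𝔼 y, W x y * (E2 π' (tk W Λ) z x * E2 π' (tk W Λ) z y)) - 2 * η * Λ ^ 2 ≤
      𝔼 z, 𝔼 x, 𝔼 y, W x y * (kk W z x * kk W z y) := by
  have hne := h.ne
  have h1 : 𝔼 z, 𝔼 x, 𝔼 y, W x y * (tk W Λ z x * tk W Λ z y) ≤
      𝔼 z, 𝔼 x, 𝔼 y, W x y * (kk W z x * kk W z y) := by
    refine ex_mono fun z => ex_mono fun x => ex_mono fun y => ?_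
    exact mul_le_mul_of_nonneg_left (mul_le_mul (tk_le_kk _ _ _ _) (tk_le_kk _ _ _ _)
      (h.tk_nonneg hΛ.le _ _) (h.k_nonneg _ _)) (h.W_nonneg _ _)
  refine le_trans ?_ h1
  have h2 : ∀ z, (𝔼 x, 𝔼 y, W x y * (E2 π' (tk W Λ) z x * E2 π' (tk W Λ) z y)) ≤
      (𝔼 x, 𝔼 y, W x y * (tk W Λ z x * tk W Λ z y)) + 2 * η * Λ ^ 2 := by
    intro z
    set f : V → ℝ := tk W Λ z with hf
    set q : V → ℝ := ce π' f with hq
    have hf0 : ∀ x, 0 ≤ f x ∧ f x ≤ Λ := fun x => ⟨h.tk_nonneg hΛ.le z x, tk_le W Λ z x⟩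
    have hq0 : ∀ x, 0 ≤ q x ∧ q x ≤ Λ := fun x =>
      ⟨ce_nonneg π' (fun y => (hf0 y).1) x, ce_le π' (fun y => (hf0 y).2) x⟩
    have hD := good_fun_abs hΛ hη hg hf0
    set d : V → ℝ := fun x => 𝔼 y, W x y * (f y - ce π' f y) with hd
    have e1 : 𝔼 x, 𝔼 y, W x y * (f x * f y) - 𝔼 x, 𝔼 y, W x y * (q x * q y) =
        (𝔼 x, f x * d x) + 𝔼 y, q y * d y := by
      have a1 : 𝔼 y, q y * d y = 𝔼 x, 𝔼 y, W x y * ((f x - q x) * q y) := by
        simp only [hd, Finset.mul_expect]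
        rw [Finset.expect_comm]
        refine Finset.expect_congr rfl fun x _ => Finset.expect_congr rfl fun y _ => ?_
        rw [h.W_symm y x]; ring
      have a2 : 𝔼 x, f x * d x = 𝔼 x, 𝔼 y, W x y * (f x * (f y - q y)) := by
        simp only [hd, Finset.mul_expect]
        refine Finset.expect_congr rfl fun x _ => Finset.expect_congr rfl fun y _ => ?_
        ring
      rw [a1, a2, ← Finset.expect_sub_distrib, ← Finset.expect_add_distrib]
      refine Finset.expect_congr rfl fun x _ => ?_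
      rw [← Finset.expect_sub_distrib, ← Finset.expect_add_distrib]
      refine Finset.expect_congr rfl fun y _ => ?_
      ring
    have b1 : -(Λ * (Λ * η)) ≤ 𝔼 x, f x * d x := by
      have : 𝔼 x, -(Λ * |d x|) ≤ 𝔼 x, f x * d x := by
        refine ex_mono fun x => ?_
        have := neg_abs_le (f x * d x)
        rw [abs_mul, abs_of_nonneg (hf0 x).1] at this
        have h3 := mul_le_mul_of_nonneg_right (hf0 x).2 (abs_nonneg (d x))
        linarith
      rw [Finset.expect_neg_distrib, ← Finset.mul_expect] at this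
      have h3 := mul_le_mul_of_nonneg_left hD hΛ.le
      linarith
    have b2 : -(Λ * (Λ * η)) ≤ 𝔼 x, q x * d x := by
      have : 𝔼 x, -(Λ * |d x|) ≤ 𝔼 x, q x * d x := by
        refine ex_mono fun x => ?_
        have := neg_abs_le (q x * d x)
        rw [abs_mul, abs_of_nonneg (hq0 x).1] at this
        have h3 := mul_le_mul_of_nonneg_right (hq0 x).2 (abs_nonneg (d x))
        linarith
      rw [Finset.expect_neg_distrib, ← Finset.mul_expect] at this
      have h3 := mul_le_mul_of_nonneg_left hD hΛ.le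
      linarith
    have c1 : ∀ x, E2 π' (tk W Λ) z x = q x := fun x => rfl
    simp only [c1]
    nlinarith
  have h3 := ex_mono h2
  rw [Finset.expect_add_distrib, Fintype.expect_const] at h3
  linarith

/-- step (c): for a nonnegative `q` and a fixed `z'`. -/
lemma IsSys.stepC (h : IsSys C Λ₀ W e) {a : ℝ} (ha : 0 ≤ a) (z' : V) {q : V → ℝ}
    (hq : ∀ x, 0 ≤ q x) :
    a ^ 2 * ((𝔼 x, kk W z' x) - 2 * 𝔼 x, kk W z' x * (if q x < a then 1 else 0)) ≤
      𝔼 x, 𝔼 y, e z' x y * (q x * q y) := by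
  have h1 : ∀ x y, a ^ 2 * (e z' x y - e z' x y * (if q x < a then 1 else 0) -
      e z' x y * (if q y < a then 1 else 0)) ≤ e z' x y * (q x * q y) := by
    intro x y
    have he := h.e_nonneg z' x y
    have hx := hq x
    have hy := hq y
    have hnn : 0 ≤ e z' x y * (q x * q y) := by positivity
    have ha2 : 0 ≤ a ^ 2 := by positivity
    split_ifs with h2 h3 h3
    · have : a ^ 2 * (e z' x y - e z' x y * 1 - e z' x y * 1) = -(a ^ 2 * e z' x y) := by ring
      rw [this]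
      have : 0 ≤ a ^ 2 * e z' x y := by positivity
      linarith
    · have : a ^ 2 * (e z' x y - e z' x y * 1 - e z' x y * 0) = 0 := by ring
      rw [this]; exact hnn
    · have : a ^ 2 * (e z' x y - e z' x y * 0 - e z' x y * 1) = 0 := by ring
      rw [this]; exact hnn
    · push Not at h2 h3
      have h4 : a ^ 2 ≤ q x * q y := by
        rw [sq]; exact mul_le_mul h2 h3 ha hx
      nlinarith
  have h2 := ex_mono fun x => ex_mono (h1 x)
  refine le_trans (le_of_eq ?_) h2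
  simp only [← Finset.mul_expect, Finset.expect_sub_distrib]
  congr 1
  have e1 : 𝔼 x, 𝔼 y, e z' x y = 𝔼 x, kk W z' x :=
    Finset.expect_congr rfl fun x _ => h.e_row z' x
  have e2 : 𝔼 x, 𝔼 y, e z' x y * (if q x < a then (1 : ℝ) else 0) =
      𝔼 x, kk W z' x * (if q x < a then 1 else 0) := by
    refine Finset.expect_congr rfl fun x _ => ?_
    rw [← Finset.expect_mul, h.e_row]
  have e3 : 𝔼 x, 𝔼 y, e z' x y * (if q y < a then (1 : ℝ) else 0) =
      𝔼 x, kk W z' x * (if q x < a then 1 else 0) := by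
    rw [Finset.expect_comm]
    refine Finset.expect_congr rfl fun x _ => ?_
    rw [← Finset.expect_mul, ← h.e_row z' x]
    congr 1
    exact Finset.expect_congr rfl fun y _ => h.e_symm z' y x
  rw [e1, e2, e3]
  ring

lemma IsSys.stepD (h : IsSys C Λ₀ W e) {a β : ℝ} (ha : 0 ≤ a) (hβ : 0 ≤ β) (π : V → L) (z : V)
    {q : V → ℝ} (hq : ∀ x, 0 ≤ q x) :
    a ^ 2 * (2 * β * ce π (fun z' => (𝔼 x, kk W z' x) -
        2 * 𝔼 x, kk W z' x * (if q x < a then 1 else 0)) z -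
      β ^ 2 * Λ₀ ^ 2 * ((Fintype.card V : ℝ) * ((cell π z).card : ℝ)⁻¹)) ≤
    𝔼 z', (if π z' = π z then 𝔼 x, 𝔼 y, e z' x y * (q x * q y) else 0) := by
  have hne := h.ne
  set D : V → ℝ := fun z' => (𝔼 x, kk W z' x) -
        2 * 𝔼 x, kk W z' x * (if q x < a then 1 else 0) with hD
  set c : ℝ := (Fintype.card V : ℝ) * ((cell π z).card : ℝ)⁻¹ with hc
  have hc0 : 0 ≤ c := by positivity
  have h1 : 1 = c * 𝔼 z', ind (cell π z) z' := by
    have := ce_eq π (fun _ => (1 : ℝ)) z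
    rw [ce_const] at this
    simpa only [one_mul] using this
  have h2 : ce π D z = c * 𝔼 z', D z' * ind (cell π z) z' := ce_eq π D z
  have h3 : a ^ 2 * (2 * β * ce π D z - β ^ 2 * Λ₀ ^ 2 * c) =
      𝔼 z', a ^ 2 * (2 * β * c * D z' - β ^ 2 * c ^ 2 * Λ₀ ^ 2) * ind (cell π z) z' := by
    have h4 : ∀ z', a ^ 2 * (2 * β * c * D z' - β ^ 2 * c ^ 2 * Λ₀ ^ 2) * ind (cell π z) z' =
        (a ^ 2 * 2 * β * c) * (D z' * ind (cell π z) z') -
        (a ^ 2 * β ^ 2 * c ^ 2 * Λ₀ ^ 2) * ind (cell π z) z' := fun z' => by ring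
    simp only [h4, Finset.expect_sub_distrib, ← Finset.mul_expect]
    rw [h2]
    have h5 : a ^ 2 * β ^ 2 * c ^ 2 * Λ₀ ^ 2 * 𝔼 z', ind (cell π z) z' =
        a ^ 2 * β ^ 2 * c * Λ₀ ^ 2 * (c * 𝔼 z', ind (cell π z) z') := by ring
    rw [h5, ← h1]
    ring
  rw [h3]
  refine ex_mono fun z' => ?_
  unfold ind
  simp only [mem_cell]
  split_ifs with hz
  · rw [mul_one]
    have hJ := h.stepC ha z' hq
    change a ^ 2 * D z' ≤ _ at hJ
    have hJ0 : 0 ≤ 𝔼 x, 𝔼 y, e z' x y * (q x * q y) :=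
      ex_nonneg fun x => ex_nonneg fun y =>
        mul_nonneg (h.e_nonneg _ _ _) (mul_nonneg (hq x) (hq y))
    have hDle : D z' ≤ Λ₀ ^ 2 := by
      have h6 := h.k_row z'
      have h7 : 0 ≤ 𝔼 x, kk W z' x * (if q x < a then (1 : ℝ) else 0) :=
        ex_nonneg fun x => mul_nonneg (h.k_nonneg _ _) (by split_ifs <;> norm_num)
      simp only [hD]
      linarith
    have ha2 : 0 ≤ a ^ 2 := by positivity
    rcases le_or_gt (D z') 0 with hneg | hpos
    · have h8 : 2 * β * c * D z' ≤ 0 := mul_nonpos_of_nonneg_of_nonpos (by positivity) hneg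
      have h9 : 0 ≤ β ^ 2 * c ^ 2 * Λ₀ ^ 2 := by positivity
      have h10 : a ^ 2 * (2 * β * c * D z' - β ^ 2 * c ^ 2 * Λ₀ ^ 2) ≤ 0 :=
        mul_nonpos_of_nonneg_of_nonpos ha2 (by linarith)
      linarith
    · have h8 : 2 * β * c * D z' - β ^ 2 * c ^ 2 * Λ₀ ^ 2 ≤ D z' := by
        have h9 : β ^ 2 * c ^ 2 * D z' ≤ β ^ 2 * c ^ 2 * Λ₀ ^ 2 :=
          mul_le_mul_of_nonneg_left hDle (by positivity)
        nlinarith [mul_nonneg hpos.le (sq_nonneg (1 - β * c))]
      exact (mul_le_mul_of_nonneg_left h8 ha2).trans hJ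
  · simp

lemma IsSys.stepE (h : IsSys C Λ₀ W e) {Λ θ X a : ℝ} (ha : 0 ≤ a)
    (ht : 𝔼 z, 𝔼 x, (kk W z x - tk W Λ z x) ≤ θ) {π : V → L} {π' : V → L'}
    (hX : N1 (fun z x => E2 π' (E1 π (tk W Λ)) z x - E2 π' (tk W Λ) z x) ≤ X) :
    1 - 2 * (θ + X + a) ≤ 𝔼 z, ce π (fun z' => (𝔼 x, kk W z' x) -
        2 * 𝔼 x, kk W z' x * (if E2 π' (tk W Λ) z x < a then 1 else 0)) z := by
  have hne := h.ne
  set K := tk W Λ with hK
  set q := E2 π' K with hq
  set ι : V → V → ℝ := fun z x => if q z x < a then 1 else 0 with hι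
  have hθ : N1 (fun z x => kk W z x - K z x) ≤ θ := by
    unfold N1
    refine le_trans (le_of_eq ?_) ht
    refine Finset.expect_congr rfl fun z _ => Finset.expect_congr rfl fun x _ => ?_
    exact abs_of_nonneg (sub_nonneg.mpr (tk_le_kk W Λ z x))
  have h1 : ∀ z, ce π (fun z' => (𝔼 x, kk W z' x) - 2 * 𝔼 x, kk W z' x * ι z x) z =
      ce π (fun z' => 𝔼 x, kk W z' x) z - 2 * 𝔼 x, E1 π (kk W) z x * ι z x := by
    intro z
    rw [ce_sub, ce_smul]
    congr 2
    unfold E1 ce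
    simp only [Finset.mul_expect, Finset.sum_mul]
    rw [← Finset.expect_sum_comm]
    refine Finset.expect_congr rfl fun x _ => Finset.sum_congr rfl fun y _ => ?_
    ring
  have h2 : ∀ z, 𝔼 x, E1 π (kk W) z x * ι z x = 𝔼 x, E2 π' (E1 π (kk W)) z x * ι z x := by
    intro z
    unfold E2
    rw [ce_selfadj]
    refine Finset.expect_congr rfl fun x _ => ?_
    congr 1
    symm
    refine ce_of_meas π' fun y hy => ?_
    have : q z y = q z x := ce_meas π' _ hy
    simp only [hι, this]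
  have h3 : ∀ z x, E2 π' (E1 π (kk W)) z x * ι z x ≤
      |E2 π' (E1 π (kk W)) z x - E2 π' (E1 π K) z x| + |E2 π' (E1 π K) z x - q z x| + a := by
    intro z x
    have a1 := abs_nonneg (E2 π' (E1 π (kk W)) z x - E2 π' (E1 π K) z x)
    have a2 := abs_nonneg (E2 π' (E1 π K) z x - q z x)
    have a3 := le_abs_self (E2 π' (E1 π (kk W)) z x - E2 π' (E1 π K) z x)
    have a4 := le_abs_self (E2 π' (E1 π K) z x - q z x)
    simp only [hι]
    split_ifs with hlt
    · linarith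
    · linarith
  have h4 : N1 (fun z x => E2 π' (E1 π (kk W)) z x - E2 π' (E1 π K) z x) ≤ θ := by
    rw [← E2_sub, ← E1_sub]
    exact (N1_E2 π' _).trans ((N1_E1 π _).trans hθ)
  have h5 : 𝔼 z, 𝔼 x, E1 π (kk W) z x * ι z x ≤ θ + X + a := by
    simp only [h2]
    refine (ex_mono fun z => ex_mono (h3 z)).trans ?_
    simp only [Finset.expect_add_distrib, Fintype.expect_const]
    exact add_le_add (add_le_add h4 hX) le_rfl
  have h6 : 𝔼 z, ce π (fun z' => 𝔼 x, kk W z' x) z = 𝔼 z, 𝔼 x, kk W z x := ex_ce π _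
  have h7 := h.k_tot
  change 1 - 2 * (θ + X + a) ≤
    𝔼 z, ce π (fun z' => (𝔼 x, kk W z' x) - 2 * 𝔼 x, kk W z' x * ι z x) z
  simp only [h1, Finset.expect_sub_distrib, ← Finset.mul_expect]
  rw [h6]
  linarith

/-- the final estimate. -/
lemma IsSys.final (h : IsSys C Λ₀ W e) (hΛ₀ : 1 ≤ Λ₀) {Λ η θ δ M : ℝ} (hΛ : 0 < Λ) (hη : 0 ≤ η)
    (hM1 : 1 ≤ M) (ht : 𝔼 z, 𝔼 x, (kk W z x - tk W Λ z x) ≤ θ)
    {π : V → L} {π' : V → L'}
    (hM : ((univ.image π).card : ℝ) ≤ M) (hg : Good W π' η)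
    (hδ : N1 (fun z x => E2 π' (tk W Λ) z x - E2 π (tk W Λ) z x) ≤ δ)
    (hs : 1 / 32 + 3 * δ + 3 * θ + 2 * η * Λ₀ * M ≤ 1 / 8) :
    (1 / 32) ^ 2 / (2 * Λ₀ ^ 3 * M) - 2 * η * Λ ^ 2 ≤
      𝔼 z, 𝔼 x, 𝔼 y, W x y * (kk W z x * kk W z y) := by
  have hne := h.ne
  have hX := h.boundX hη ht hM hg hδ
  have hE := h.stepE (a := 1 / 32) (by norm_num) ht hX
  have hA := h.stepA hΛ hη hg
  set q := E2 π' (tk W Λ) with hq
  set β : ℝ := 1 / (2 * Λ₀ ^ 2 * M) with hβ
  have hΛ₀p : 0 < Λ₀ := by linarith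
  have hMp : 0 < M := by linarith
  have hβ0 : 0 < β := by positivity
  have hq0 : ∀ z x, 0 ≤ q z x := fun z x => ce_nonneg π' (fun y => h.tk_nonneg hΛ.le z y) x
  have hD := fun z => h.stepD (a := 1 / 32) (by norm_num) hβ0.le π z (hq0 z)
  have hD' := ex_mono hD
  -- lower bound for Q
  have hQ : 𝔼 z, 𝔼 z', (if π z' = π z then 𝔼 x, 𝔼 y, e z' x y * (q z x * q z y) else 0) ≤
      Λ₀ * 𝔼 z, 𝔼 x, 𝔼 y, W x y * (q z x * q z y) := by
    rw [Finset.mul_expect]
    refine ex_mono fun z => ?_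
    have h1 : 𝔼 z', (if π z' = π z then 𝔼 x, 𝔼 y, e z' x y * (q z x * q z y) else 0) =
        𝔼 x, 𝔼 y, (𝔼 z', (if π z' = π z then e z' x y else 0)) * (q z x * q z y) := by
      have h2 : ∀ z', (if π z' = π z then 𝔼 x, 𝔼 y, e z' x y * (q z x * q z y) else 0) =
          𝔼 x, 𝔼 y, (if π z' = π z then e z' x y else 0) * (q z x * q z y) := by
        intro z'
        split_ifs
        · rfl
        · simp
      simp only [h2, Finset.expect_mul]
      rw [Finset.expect_comm]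
      refine Finset.expect_congr rfl fun x _ => ?_
      rw [Finset.expect_comm]
    rw [h1, Finset.mul_expect]
    refine ex_mono fun x => ?_
    rw [Finset.mul_expect]
    refine ex_mono fun y => ?_
    have h3 := h.e_cell (fun z' => π z' = π z) x y
    calc (𝔼 z', (if π z' = π z then e z' x y else 0)) * (q z x * q z y)
        ≤ (Λ₀ * W x y) * (q z x * q z y) :=
          mul_le_mul_of_nonneg_right h3 (mul_nonneg (hq0 z x) (hq0 z y))
      _ = _ := by ring
  have hinv := (ex_inv_cell π).trans hM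
  have hsum : (1 / 32 : ℝ) ^ 2 * (2 * β * (3 / 4) - β ^ 2 * Λ₀ ^ 2 * M) ≤
      Λ₀ * 𝔼 z, 𝔼 x, 𝔼 y, W x y * (q z x * q z y) := by
    refine le_trans ?_ (hD'.trans hQ)
    simp only [← Finset.mul_expect, Finset.expect_sub_distrib]
    rw [← Finset.mul_expect] at hinv
    refine mul_le_mul_of_nonneg_left ?_ (by norm_num)
    have h1 : 2 * β * (3 / 4) ≤ 2 * β * 𝔼 z, ce π (fun z' => (𝔼 x, kk W z' x) -
        2 * 𝔼 x, kk W z' x * (if q z x < 1 / 32 then 1 else 0)) z :=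
      mul_le_mul_of_nonneg_left (by linarith) (by positivity)
    have h2 : β ^ 2 * Λ₀ ^ 2 * ((Fintype.card V : ℝ) * 𝔼 z, ((cell π z).card : ℝ)⁻¹) ≤
        β ^ 2 * Λ₀ ^ 2 * M := mul_le_mul_of_nonneg_left hinv (by positivity)
    linarith
  have hβ1 : β ^ 2 * Λ₀ ^ 2 * M = β / 2 := by
    rw [hβ]; field_simp
  have hβ2 : (1 / 32 : ℝ) ^ 2 / (2 * Λ₀ ^ 3 * M) = (1 / 32) ^ 2 * β / Λ₀ := by
    rw [hβ]; field_simp
  rw [hβ1] at hsum
  have hfin : (1 / 32 : ℝ) ^ 2 / (2 * Λ₀ ^ 3 * M) ≤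
      𝔼 z, 𝔼 x, 𝔼 y, W x y * (q z x * q z y) := by
    rw [hβ2, div_le_iff₀ hΛ₀p]
    have : (1 / 32 : ℝ) ^ 2 * (2 * β * (3 / 4) - β / 2) = (1 / 32) ^ 2 * β := by ring
    linarith
  linarith

end Kernels

end Sys

lemma core_rec (C Λ₀ : ℝ) (hC : 1 ≤ C) (hΛ₀ : 1 ≤ Λ₀) (j : ℕ) : ∀ m : ℕ, ∃ c : ℝ, 0 < c ∧
    ∀ (V : Type) [Fintype V] [DecidableEq V] (W : V → V → ℝ) (e : V → V → V → ℝ)
      (_ : IsSys C Λ₀ W e) (𝒜 : Finset (Finset V)), 𝒜.card ≤ m →
      (40000 * C) ^ 2 ≤ energy (tk W (40000 * C)) (lab 𝒜) + j * (1 / 100) ^ 2 →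
      c ≤ 𝔼 z, 𝔼 x, 𝔼 y, W x y * (kk W z x * kk W z y) := by
  have hΛ₀p : 0 < Λ₀ := by linarith
  have hCp : 0 < C := by linarith
  induction j with
  | zero =>
    intro m
    set Λ : ℝ := 40000 * C with hΛ
    have hΛ1 : 1 ≤ Λ := by linarith
    have hΛp : 0 < Λ := by linarith
    set M : ℝ := 2 ^ m with hM
    have hM1 : 1 ≤ M := one_le_pow₀ (by norm_num)
    have hMp : 0 < M := by linarith
    set η : ℝ := 1 / (8192 * Λ₀ ^ 3 * M * Λ ^ 2) with hη
    have hηp : 0 < η := by positivity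
    refine ⟨1 / (4096 * Λ₀ ^ 3 * M), by positivity, ?_⟩
    intro V _ _ W e h 𝒜 hcard hen
    have hne := h.ne
    have htail : ∀ τ : ℝ, 0 < τ → 𝔼 z, 𝔼 x, (kk W z x - tk W (C / τ ^ 2) z x) ≤ 2 * τ := by
      intro τ hτ
      have := h.tail (Λ := C / τ ^ 2) (by positivity) hτ
      have h2 : C / (C / τ ^ 2 * τ) = τ := by field_simp
      rw [h2] at this
      unfold tk
      linarith
    have ht : 𝔼 z, 𝔼 x, (kk W z x - tk W Λ z x) ≤ 1 / 100 := by
      have h2 := htail (1 / 200) (by norm_num)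
      have h3 : C / (1 / 200) ^ 2 = Λ := by rw [hΛ]; ring
      rw [h3] at h2
      linarith
    obtain ⟨N, hN⟩ := exists_nat_gt ((C / (η ^ 2 / 4) ^ 2) ^ 2 / (η ^ 2 / 2) ^ 2)
    rw [div_lt_iff₀ (by positivity)] at hN
    obtain ⟨ℬ, hsub, hcQ, hgood⟩ := h.good_refine (Λ := C / (η ^ 2 / 4) ^ 2) (η := η)
      (by positivity) (by have := htail (η ^ 2 / 4) (by positivity); linarith) hN 𝒜
    have hr := lab_refines hsub
    have hQle := energy_le (h.tk_nonneg hΛp.le) (tk_le W Λ) (lab ℬ)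
    have hδ : N1 (fun z x => E2 (lab ℬ) (tk W Λ) z x - E2 (lab 𝒜) (tk W Λ) z x) ≤ 1 / 100 := by
      refine ex2_abs_le_of_sq (by norm_num) ?_
      have := energy_pyth hr (tk W Λ)
      unfold E2
      rw [this]
      simp only [Nat.cast_zero, zero_mul, add_zero] at hen
      have : (0 : ℝ) ≤ (1 / 100) ^ 2 := by norm_num
      linarith
    have hcells : ((univ.image (lab 𝒜)).card : ℝ) ≤ M := by
      have h1 := (lab_cells 𝒜).trans (Nat.pow_le_pow_right (by norm_num) hcard)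
      rw [hM]
      exact_mod_cast h1
    have e1 : 2 * η * Λ₀ * M ≤ 1 / 4096 := by
      have : 2 * η * Λ₀ * M = 1 / (4096 * (Λ₀ ^ 2 * Λ ^ 2)) := by
        rw [hη]; field_simp; norm_num
      rw [this]
      apply one_div_le_one_div_of_le (by norm_num)
      have : 1 ≤ Λ₀ ^ 2 * Λ ^ 2 := one_le_mul_of_one_le_of_one_le
        (one_le_pow₀ hΛ₀) (one_le_pow₀ hΛ1)
      linarith
    have e2 : 2 * η * Λ ^ 2 = 1 / (4096 * Λ₀ ^ 3 * M) := by
      rw [hη]; field_simp; norm_num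
    have hfin := h.final hΛ₀ hΛp hηp.le hM1 ht hcells hgood hδ (by linarith)
    rw [e2] at hfin
    have e3 : (1 / 32 : ℝ) ^ 2 / (2 * Λ₀ ^ 3 * M) - 1 / (4096 * Λ₀ ^ 3 * M) =
        1 / (4096 * Λ₀ ^ 3 * M) := by
      field_simp; norm_num
    rw [e3] at hfin
    exact hfin
  | succ j ih =>
    intro m
    set Λ : ℝ := 40000 * C with hΛ
    have hΛ1 : 1 ≤ Λ := by linarith
    have hΛp : 0 < Λ := by linarith
    set M : ℝ := 2 ^ m with hM
    have hM1 : 1 ≤ M := one_le_pow₀ (by norm_num)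
    have hMp : 0 < M := by linarith
    set η : ℝ := 1 / (8192 * Λ₀ ^ 3 * M * Λ ^ 2) with hη
    have hηp : 0 < η := by positivity
    obtain ⟨N, hN⟩ := exists_nat_gt ((C / (η ^ 2 / 4) ^ 2) ^ 2 / (η ^ 2 / 2) ^ 2)
    rw [div_lt_iff₀ (by positivity)] at hN
    obtain ⟨c, hc, hcc⟩ := ih (m + N)
    refine ⟨min c (1 / (4096 * Λ₀ ^ 3 * M)), lt_min hc (by positivity), ?_⟩
    intro V _ _ W e h 𝒜 hcard hen
    have hne := h.ne
    have htail : ∀ τ : ℝ, 0 < τ → 𝔼 z, 𝔼 x, (kk W z x - tk W (C / τ ^ 2) z x) ≤ 2 * τ := by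
      intro τ hτ
      have := h.tail (Λ := C / τ ^ 2) (by positivity) hτ
      have h2 : C / (C / τ ^ 2 * τ) = τ := by field_simp
      rw [h2] at this
      unfold tk
      linarith
    have ht : 𝔼 z, 𝔼 x, (kk W z x - tk W Λ z x) ≤ 1 / 100 := by
      have h2 := htail (1 / 200) (by norm_num)
      have h3 : C / (1 / 200) ^ 2 = Λ := by rw [hΛ]; ring
      rw [h3] at h2
      linarith
    obtain ⟨ℬ, hsub, hcQ, hgood⟩ := h.good_refine (Λ := C / (η ^ 2 / 4) ^ 2) (η := η)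
      (by positivity) (by have := htail (η ^ 2 / 4) (by positivity); linarith) hN 𝒜
    have hr := lab_refines hsub
    have hpy := energy_pyth hr (tk W Λ)
    by_cases hinc : energy (tk W Λ) (lab ℬ) - energy (tk W Λ) (lab 𝒜) ≤ (1 / 100) ^ 2
    · have hδ : N1 (fun z x => E2 (lab ℬ) (tk W Λ) z x - E2 (lab 𝒜) (tk W Λ) z x) ≤
          1 / 100 := by
        refine ex2_abs_le_of_sq (by norm_num) ?_
        unfold E2
        rw [hpy]
        exact hinc
      have hcells : ((univ.image (lab 𝒜)).card : ℝ) ≤ M := by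
        have h1 := (lab_cells 𝒜).trans (Nat.pow_le_pow_right (by norm_num) hcard)
        rw [hM]
        exact_mod_cast h1
      have e1 : 2 * η * Λ₀ * M ≤ 1 / 4096 := by
        have : 2 * η * Λ₀ * M = 1 / (4096 * (Λ₀ ^ 2 * Λ ^ 2)) := by
          rw [hη]; field_simp; norm_num
        rw [this]
        apply one_div_le_one_div_of_le (by norm_num)
        have : 1 ≤ Λ₀ ^ 2 * Λ ^ 2 := one_le_mul_of_one_le_of_one_le
          (one_le_pow₀ hΛ₀) (one_le_pow₀ hΛ1)
        linarith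
      have e2 : 2 * η * Λ ^ 2 = 1 / (4096 * Λ₀ ^ 3 * M) := by
        rw [hη]; field_simp; norm_num
      have hfin := h.final hΛ₀ hΛp hηp.le hM1 ht hcells hgood hδ (by linarith)
      rw [e2] at hfin
      have e3 : (1 / 32 : ℝ) ^ 2 / (2 * Λ₀ ^ 3 * M) - 1 / (4096 * Λ₀ ^ 3 * M) =
          1 / (4096 * Λ₀ ^ 3 * M) := by
        field_simp; norm_num
      rw [e3] at hfin
      exact (min_le_right _ _).trans hfin
    · push Not at hinc
      refine (min_le_left _ _).trans (hcc V W e h ℬ (by omega) ?_)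
      push_cast at hen
      linarith

/-- **Core theorem.** -/
theorem core (C Λ₀ : ℝ) (hC : 1 ≤ C) (hΛ₀ : 1 ≤ Λ₀) : ∃ c : ℝ, 0 < c ∧
    ∀ (V : Type) [Fintype V] (W : V → V → ℝ) (e : V → V → V → ℝ)
      (_ : IsSys C Λ₀ W e), c ≤ 𝔼 z, 𝔼 x, 𝔼 y, W x y * (kk W z x * kk W z y) := by
  classical
  obtain ⟨j, hj⟩ := exists_nat_gt ((40000 * C) ^ 2 / (1 / 100) ^ 2)
  rw [div_lt_iff₀ (by norm_num)] at hj
  obtain ⟨c, hc, h⟩ := core_rec C Λ₀ hC hΛ₀ j 0
  refine ⟨c, hc, fun V _ W e hs => h V W e hs ∅ (by simp) ?_⟩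
  have := energy_nonneg (tk W (40000 * C)) (lab (∅ : Finset (Finset V)))
  linarith

end Pool.Agent.Lib.MP_86e34a_co
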