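import Mathlib

set_option autoImplicit false

namespace Pool.Agent.Lib.MP_86e34a_co

/-- `H` is a triple system (3-graph): every edge has exactly three vertices. -/
def IsTripleSystem {V : Type} (H : Finset (Finset V)) : Prop :=
  ∀ e ∈ H, e.card = 3

/-- `H` is linear: no two distinct edges share two vertices. -/
def IsLinear {V : Type} [DecidableEq V] (H : Finset (Finset V)) : Prop :=
  ∀ e ∈ H, ∀ f ∈ H, e ≠ f → (e ∩ f).card ≤ 1

/-- `F` is the edge set of a pentagon, i.e. of a linear cycle with five edges: there are ten
distinct vertices `v i`, `w i` (`i` modulo 5; addition in `Fin 5` is modulo 5) such that `F`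
consists of the five edges `{v i, v (i+1), w i}`. -/
def IsPentagon {V : Type} [DecidableEq V] (F : Finset (Finset V)) : Prop :=
  ∃ v w : Fin 5 → V, Function.Injective (Sum.elim v w) ∧
    F = Finset.univ.image (fun i : Fin 5 => ({v i, v (i + 1), w i} : Finset V))

open Classical in
/-- The number of copies of the pentagon in `H`: the number of sets of edges of `H` that form a
pentagon. -/
noncomputable def pentagonCount {V : Type} [DecidableEq V] (H : Finset (Finset V)) : ℕ :=
  (H.powerset.filter (fun F => IsPentagon F)).card

end Pool.Agent.Lib.MP_86e34a_co
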