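import Pool.Agent.Lib.MP_86e34a_co.Walks

set_option autoImplicit false

namespace Pool.Agent.Lib.MP_86e34a_co

open Finset

/-- The lower bound `m ^ 6 / n ^ 7` is not tight, for any `m` between `n ^ (11 / 6)` and a small
multiple of `n ^ 2`. -/
theorem strong (C : ℝ) (hC : 0 < C) : ∃ c : ℝ, 0 < c ∧ ∀ n : ℕ, 0 < n →
    ∀ H : Finset (Finset (Fin n)), IsTripleSystem H → IsLinear H →
      (n : ℝ) ^ ((11 : ℝ) / 6) ≤ H.card → (H.card : ℝ) ≤ c * n ^ 2 →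
      C * (H.card : ℝ) ^ 6 / (n : ℝ) ^ 7 < pentagonCount H := by
  obtain ⟨c, hc, h⟩ := density_bound (15 ^ 5 * C + 75) (by linarith)
  refine ⟨c / 2, by positivity, fun n hn H h3 hl hlow hup => ?_⟩
  by_contra hcon
  push Not at hcon
  have : Nonempty (Fin n) := ⟨⟨0, hn⟩⟩
  have hnp : (0 : ℝ) < n := by exact_mod_cast hn
  set m : ℝ := (H.card : ℝ) with hm
  have hlow6 : (n : ℝ) ^ 11 ≤ m ^ 6 := by
    have h1 : ((n : ℝ) ^ ((11 : ℝ) / 6)) ^ 6 = (n : ℝ) ^ 11 := by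
      rw [← Real.rpow_natCast, ← Real.rpow_mul hnp.le, ← Real.rpow_natCast]
      norm_num
    rw [← h1]
    exact pow_le_pow_left₀ (by positivity) hlow 6
  have hmp : 0 < m := by
    have : (0 : ℝ) < (n : ℝ) ^ ((11 : ℝ) / 6) := Real.rpow_pos_of_pos hnp _
    linarith
  have hW := W5_le h3 hl
  rw [Fintype.card_fin] at hW
  have hW' : W5 (tw H) ≤ (15 ^ 5 * C + 75) * (m / n / n) * (m / n) ^ 5 := by
    refine hW.trans ?_
    have h1 : (n : ℝ) ^ 4 ≤ m ^ 6 / n ^ 7 := by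
      rw [le_div_iff₀ (by positivity)]
      calc (n : ℝ) ^ 4 * n ^ 7 = n ^ 11 := by ring
        _ ≤ m ^ 6 := hlow6
    calc 15 ^ 5 * (pentagonCount H : ℝ) + 75 * (n : ℝ) ^ 4
        ≤ 15 ^ 5 * (C * m ^ 6 / n ^ 7) + 75 * (m ^ 6 / n ^ 7) := by gcongr
      _ = (15 ^ 5 * C + 75) * (m / n / n) * (m / n) ^ 5 := by field_simp
  have hsum : m / n * (Fintype.card (Fin n) : ℝ) ≤ ∑ x, ∑ y, sh (tw H) x y := by
    rw [Fintype.card_fin]
    refine le_trans (le_of_eq ?_) (tw_sum h3)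
    field_simp
    rfl
  have h1 := h (Fin n) (tw H) (m / n) (tw_isTS h3 hl) (by positivity) hsum
    (by rw [Fintype.card_fin]; exact hW')
  rw [Fintype.card_fin, le_div_iff₀ hnp, le_div_iff₀ hnp] at h1
  have : 0 < c * (n : ℝ) ^ 2 := by positivity
  nlinarith

/-- Question 1 is false, in a strong form. -/
theorem main_result :
    ∀ C₀ C : ℝ, 0 < C₀ → 0 < C →
      ∃ c : ℝ, 0 < c ∧ ∃ n₀ : ℕ, ∀ n : ℕ, n₀ ≤ n →
        (∃ m : ℕ, (n : ℝ) ^ ((11 : ℝ) / 6) ≤ m ∧ (m : ℝ) ≤ c * (n : ℝ) ^ 2) ∧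
        ∀ m : ℕ, (n : ℝ) ^ ((11 : ℝ) / 6) ≤ m → (m : ℝ) ≤ c * (n : ℝ) ^ 2 →
          (C₀ * (n : ℝ) ^ ((3 : ℝ) / 2) < m ∧ (m : ℝ) < (n : ℝ) ^ 2 / C₀) ∧
          ∀ H : Finset (Finset (Fin n)), IsTripleSystem H → IsLinear H → H.card = m →
            C * (m : ℝ) ^ 6 / (n : ℝ) ^ 7 < pentagonCount H := by
  intro C₀ C hC₀ hC
  obtain ⟨c₁, hc₁, hs⟩ := strong C hC
  set c : ℝ := min c₁ (1 / C₀) / 2 with hc
  have hcp : 0 < c := by positivity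
  have hc1 : c < c₁ := by
    have : min c₁ (1 / C₀) ≤ c₁ := min_le_left _ _
    rw [hc]; linarith
  have hc2 : c < 1 / C₀ := by
    have h1 : min c₁ (1 / C₀) ≤ 1 / C₀ := min_le_right _ _
    have h2 : 0 < 1 / C₀ := by positivity
    rw [hc]; linarith
  obtain ⟨k, hk⟩ := exists_nat_gt (max (2 / c) (C₀ + 1))
  have hk1 : 2 / c < k := lt_of_le_of_lt (le_max_left _ _) hk
  have hk2 : C₀ + 1 < k := lt_of_le_of_lt (le_max_right _ _) hk
  refine ⟨c, hcp, k ^ 6, fun n hn => ?_⟩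
  have hk0 : (0 : ℝ) < k := by linarith
  have hnk : (k : ℝ) ^ 6 ≤ n := by exact_mod_cast hn
  have hnp : (0 : ℝ) < n := lt_of_lt_of_le (by positivity) hnk
  have hn0 : 0 < n := by exact_mod_cast hnp
  set r : ℝ := (n : ℝ) ^ ((1 : ℝ) / 6) with hr
  have hr0 : 0 < r := Real.rpow_pos_of_pos hnp _
  have e6 : r ^ 6 = n := by
    rw [hr, ← Real.rpow_natCast, ← Real.rpow_mul hnp.le]
    norm_num
  have hkr : (k : ℝ) ≤ r := by
    refine le_of_pow_le_pow_left₀ (n := 6) (by norm_num) hr0.le ?_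
    rw [e6]; exact hnk
  have e1 : (n : ℝ) ^ ((3 : ℝ) / 2) = r ^ 9 := by
    rw [hr, ← Real.rpow_natCast, ← Real.rpow_mul hnp.le]
    norm_num
  have e2 : (n : ℝ) ^ ((11 : ℝ) / 6) = r ^ 11 := by
    rw [hr, ← Real.rpow_natCast, ← Real.rpow_mul hnp.le]
    norm_num
  have e3 : (n : ℝ) ^ 2 = r ^ 12 := by
    rw [← e6]; ring
  have hr1 : 1 ≤ r := by linarith
  have h11 : (1 : ℝ) ≤ r ^ 11 := one_le_pow₀ hr1
  have hC₀r : C₀ * r ^ 9 < r ^ 11 := by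
    have h1 : C₀ < r ^ 2 := by nlinarith
    calc C₀ * r ^ 9 < r ^ 2 * r ^ 9 := mul_lt_mul_of_pos_right h1 (by positivity)
      _ = r ^ 11 := by ring
  refine ⟨⟨⌊c * (n : ℝ) ^ 2⌋₊, ?_, Nat.floor_le (by positivity)⟩, ?_⟩
  · have h1 : c * (n : ℝ) ^ 2 < ⌊c * (n : ℝ) ^ 2⌋₊ + 1 := Nat.lt_floor_add_one _
    rw [e2]
    have h2 : 2 * r ^ 11 ≤ c * (n : ℝ) ^ 2 := by
      rw [e3]
      have h3 : 2 < r * c := by
        rw [div_lt_iff₀ hcp] at hk1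
        nlinarith
      calc 2 * r ^ 11 ≤ (r * c) * r ^ 11 := mul_le_mul_of_nonneg_right h3.le (by positivity)
        _ = c * r ^ 12 := by ring
    linarith
  · intro m hm1 hm2
    refine ⟨⟨?_, ?_⟩, ?_⟩
    · rw [e2] at hm1
      rw [e1]
      linarith
    · calc (m : ℝ) ≤ c * (n : ℝ) ^ 2 := hm2
        _ < 1 / C₀ * (n : ℝ) ^ 2 := mul_lt_mul_of_pos_right hc2 (by positivity)
        _ = (n : ℝ) ^ 2 / C₀ := by ring
    · intro H h3 hl hcard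
      have h1 := hs n hn0 H h3 hl (by rw [hcard]; exact hm1)
        (by
          rw [hcard]
          exact hm2.trans (mul_le_mul_of_nonneg_right hc1.le (by positivity)))
      rw [hcard] at h1
      exact h1

end Pool.Agent.Lib.MP_86e34a_co
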