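import Pool.Agent.Lib.MP_86e34a_co.Weighted
import Pool.Agent.Lib.MP_86e34a_co.Defs

set_option autoImplicit false
set_option linter.unusedSectionVars false

namespace Pool.Agent.Lib.MP_86e34a_co

open Finset
open scoped BigOperators

section Walks

variable {V : Type} [Fintype V] [DecidableEq V]

/-- indicator weight. -/
noncomputable def tw (H : Finset (Finset V)) (x y z : V) : ℝ :=
  if ({x, y, z} : Finset V) ∈ H then 1 else 0

lemma ne_of_card3 {x y z : V} (h : ({x, y, z} : Finset V).card = 3) : x ≠ y ∧ x ≠ z ∧ y ≠ z := by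
  refine ⟨?_, ?_, ?_⟩
  · rintro rfl
    have : ({x, x, z} : Finset V).card ≤ 2 := by
      rw [Finset.insert_eq_of_mem (by simp)]
      exact Finset.card_le_two
    omega
  · rintro rfl
    have : ({x, y, x} : Finset V).card ≤ 2 := by
      rw [Finset.insert_eq_of_mem (by simp)]
      exact Finset.card_le_two
    omega
  · rintro rfl
    have : ({x, y, y} : Finset V).card ≤ 2 := by
      rw [Finset.insert_eq_of_mem (show y ∈ ({y} : Finset V) by simp)]
      exact Finset.card_le_two
    omega

lemma third_unique {H : Finset (Finset V)} (h3 : IsTripleSystem H) (hl : IsLinear H)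
    {x y z z' : V} (h : ({x, y, z} : Finset V) ∈ H) (h' : ({x, y, z'} : Finset V) ∈ H) :
    z = z' := by
  obtain ⟨hxy, hxz, hyz⟩ := ne_of_card3 (h3 _ h)
  by_cases heq : ({x, y, z} : Finset V) = {x, y, z'}
  · have : z ∈ ({x, y, z'} : Finset V) := by rw [← heq]; simp
    simp only [mem_insert, mem_singleton] at this
    rcases this with rfl | rfl | h1
    · exact absurd rfl hxz
    · exact absurd rfl hyz
    · exact h1
  · exfalso
    have h1 := hl _ h _ h' heq
    have h2 : ({x, y} : Finset V) ⊆ {x, y, z} ∩ {x, y, z'} := by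
      intro a ha
      simp only [mem_insert, mem_singleton] at ha
      simp only [mem_inter, mem_insert, mem_singleton]
      tauto
    have h4 := card_le_card h2
    rw [Finset.card_pair hxy] at h4
    omega

lemma tw_isTS {H : Finset (Finset V)} (h3 : IsTripleSystem H) (hl : IsLinear H) :
    IsTS (tw H) := by
  refine ⟨?_, ?_, ?_, ?_⟩
  · intro x y z
    unfold tw; split_ifs <;> norm_num
  · intro x y z
    unfold tw
    rw [Finset.insert_comm]
  · intro x y z
    unfold tw
    rw [Finset.pair_comm]
  · intro x y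
    unfold sh tw
    rw [Finset.sum_boole]
    have : (univ.filter (fun z => ({x, y, z} : Finset V) ∈ H)).card ≤ 1 := by
      rw [Finset.card_le_one]
      intro a ha b hb
      simp only [mem_filter, mem_univ, true_and] at ha hb
      exact third_unique h3 hl ha hb
    exact_mod_cast this

lemma tw_sum {H : Finset (Finset V)} (h3 : IsTripleSystem H) :
    (H.card : ℝ) ≤ ∑ x, ∑ y, sh (tw H) x y := by
  have h1 : ∑ x, ∑ y, sh (tw H) x y =
      ((univ.filter (fun t : V × V × V => ({t.1, t.2.1, t.2.2} : Finset V) ∈ H)).card : ℝ) := by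
    unfold sh tw
    rw [← Finset.sum_boole, Fintype.sum_prod_type]
    refine Finset.sum_congr rfl fun x _ => ?_
    rw [Fintype.sum_prod_type]
  rw [h1]
  have h2 : H ⊆ (univ.filter (fun t : V × V × V => ({t.1, t.2.1, t.2.2} : Finset V) ∈ H)).image
      (fun t => ({t.1, t.2.1, t.2.2} : Finset V)) := by
    intro e he
    obtain ⟨x, y, z, -, -, -, rfl⟩ := Finset.card_eq_three.mp (h3 e he)
    rw [mem_image]
    exact ⟨(x, y, z), by simpa using he, rfl⟩
  exact_mod_cast (card_le_card h2).trans card_image_le

open Classical in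
/-- third vertex of the edge through `x`, `y` (junk value if none). -/
noncomputable def third (H : Finset (Finset V)) (x y : V) : V :=
  if h : ∃ w, ({x, y, w} : Finset V) ∈ H then h.choose else x

lemma third_mem {H : Finset (Finset V)} {x y w : V} (h : ({x, y, w} : Finset V) ∈ H) :
    ({x, y, third H x y} : Finset V) ∈ H := by
  have h' : ∃ w, ({x, y, w} : Finset V) ∈ H := ⟨w, h⟩
  unfold third
  rw [dif_pos h']
  exact h'.choose_spec

/-- closed walks of length five. -/
noncomputable def walks (H : Finset (Finset V)) : Finset (Fin 5 → V) :=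
  univ.filter (fun v => ∀ i : Fin 5, ({v i, v (i + 1), third H (v i) (v (i + 1))} : Finset V) ∈ H)

lemma sh_tw_le {H : Finset (Finset V)} (h3 : IsTripleSystem H) (hl : IsLinear H) (x y : V) :
    sh (tw H) x y ≤ if ({x, y, third H x y} : Finset V) ∈ H then 1 else 0 := by
  split_ifs with h
  · exact (tw_isTS h3 hl).le_one x y
  · refine le_of_eq (Finset.sum_eq_zero fun w _ => ?_)
    unfold tw
    rw [if_neg]
    exact fun hw => h (third_mem hw)

/-- reordering equivalence. -/
def tupleEquiv : (V × V × V × V × V) ≃ (Fin 5 → V) where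
  toFun t := ![t.1, t.2.2.2.1, t.2.1, t.2.2.1, t.2.2.2.2]
  invFun v := (v 0, v 2, v 3, v 1, v 4)
  left_inv := by
    rintro ⟨z, x, y, u, w⟩
    rfl
  right_inv := by
    intro v
    funext i
    fin_cases i <;> rfl

lemma W5_le_walks {H : Finset (Finset V)} (h3 : IsTripleSystem H) (hl : IsLinear H) :
    W5 (tw H) ≤ (walks H).card := by
  set a : V → V → ℝ := fun x y => if ({x, y, third H x y} : Finset V) ∈ H then 1 else 0 with ha
  have hTS := tw_isTS h3 hl
  have h1 : W5 (tw H) = ∑ z, ∑ x, ∑ y, ∑ u, ∑ w, sh (tw H) x y *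
      ((sh (tw H) z u * sh (tw H) u x) * (sh (tw H) z w * sh (tw H) w y)) := by
    unfold W5 gg
    refine Finset.sum_congr rfl fun z _ => Finset.sum_congr rfl fun x _ =>
      Finset.sum_congr rfl fun y _ => ?_
    rw [Finset.sum_mul_sum, Finset.mul_sum]
    refine Finset.sum_congr rfl fun u _ => ?_
    rw [Finset.mul_sum]
  have h2 : ((walks H).card : ℝ) = ∑ v : Fin 5 → V, ∏ i : Fin 5, a (v i) (v (i + 1)) := by
    unfold walks
    rw [← Finset.sum_boole]
    refine Finset.sum_congr rfl fun v _ => ?_
    rw [ha, Finset.prod_boole]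
    simp
  have h4 : ∑ v : Fin 5 → V, ∏ i : Fin 5, a (v i) (v (i + 1)) =
      ∑ z, ∑ x, ∑ y, ∑ u, ∑ w, a z u * a u x * a x y * a y w * a w z := by
    rw [← Equiv.sum_comp (tupleEquiv (V := V))]
    simp only [Fintype.sum_prod_type]
    refine Finset.sum_congr rfl fun z _ => Finset.sum_congr rfl fun x _ =>
      Finset.sum_congr rfl fun y _ => Finset.sum_congr rfl fun u _ =>
      Finset.sum_congr rfl fun w _ => ?_
    rw [Fin.prod_univ_five]
    rfl
  rw [h1, h2, h4]
  refine Finset.sum_le_sum fun z _ => Finset.sum_le_sum fun x _ => Finset.sum_le_sum fun y _ =>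
    Finset.sum_le_sum fun u _ => Finset.sum_le_sum fun w _ => ?_
  have hs := sh_tw_le h3 hl
  have hn := hTS.sh_nonneg
  have ha0 : ∀ x y, 0 ≤ a x y := fun x y => (hn x y).trans (hs x y)
  rw [hTS.sh_symm w y, hTS.sh_symm z w]
  calc sh (tw H) x y * (sh (tw H) z u * sh (tw H) u x * (sh (tw H) w z * sh (tw H) y w))
      ≤ a x y * (a z u * a u x * (a w z * a y w)) := by
        have b1 := hn x y
        have b2 := hn z u
        have b3 := hn u x
        have b4 := hn w z
        have b5 := hn y w
        have c1 := ha0 x y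
        have c2 := ha0 z u
        have c3 := ha0 u x
        have c4 := ha0 w z
        have c5 := ha0 y w
        have d1 : sh (tw H) z u * sh (tw H) u x ≤ a z u * a u x := mul_le_mul (hs _ _) (hs _ _) b3 c2
        have d2 : sh (tw H) w z * sh (tw H) y w ≤ a w z * a y w := mul_le_mul (hs _ _) (hs _ _) b5 c4
        have d3 := mul_le_mul d1 d2 (mul_nonneg b4 b5) (mul_nonneg c2 c3)
        exact mul_le_mul (hs _ _) d3 (mul_nonneg (mul_nonneg b2 b3) (mul_nonneg b4 b5)) c1
    _ = _ := by ring

/-- third vertices along a walk. -/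
noncomputable def wv (H : Finset (Finset V)) (v : Fin 5 → V) (i : Fin 5) : V :=
  third H (v i) (v (i + 1))

lemma mem_walks {H : Finset (Finset V)} {v : Fin 5 → V} (hv : v ∈ walks H) (i : Fin 5) :
    ({v i, v (i + 1), wv H v i} : Finset V) ∈ H := by
  unfold walks at hv
  simp only [mem_filter, mem_univ, true_and] at hv
  exact hv i

open Classical in
/-- nondegenerate walks. -/
noncomputable def good (H : Finset (Finset V)) : Finset (Fin 5 → V) :=
  (walks H).filter (fun v => Function.Injective (Sum.elim v (wv H v)))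

open Classical in
/-- degenerate walks. -/
noncomputable def bad (H : Finset (Finset V)) : Finset (Fin 5 → V) :=
  (walks H).filter (fun v => ¬ Function.Injective (Sum.elim v (wv H v)))

lemma card_walks (H : Finset (Finset V)) : (walks H).card = (good H).card + (bad H).card := by
  unfold good bad
  rw [Finset.card_filter_add_card_filter_not]

lemma card_good {H : Finset (Finset V)} (h3 : IsTripleSystem H) :
    (good H).card ≤ 15 ^ 5 * pentagonCount H := by
  classical
  unfold pentagonCount
  refine Finset.card_le_mul_card_image_of_maps_to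
    (f := fun v : Fin 5 → V => univ.image (fun i : Fin 5 => ({v i, v (i + 1), wv H v i} : Finset V)))
    ?_ _ ?_
  · intro v hv
    unfold good at hv
    rw [mem_filter] at hv
    rw [mem_filter, mem_powerset]
    refine ⟨?_, v, wv H v, hv.2, rfl⟩
    intro e he
    obtain ⟨i, -, rfl⟩ := mem_image.mp he
    exact mem_walks hv.1 i
  · intro F hF
    rw [mem_filter, mem_powerset] at hF
    obtain ⟨hFH, v₀, w₀, -, hF⟩ := hF
    have hcard : (F.biUnion id).card ≤ 15 := by
      have h1 : (F.biUnion id).card ≤ F.card * 3 :=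
        card_biUnion_le_card_mul _ _ _ fun e he => (h3 e (hFH he)).le
      have h2 : F.card ≤ 5 := by
        rw [hF]
        exact card_image_le.trans (by simp)
      omega
    calc ((good H).filter (fun v => univ.image
          (fun i : Fin 5 => ({v i, v (i + 1), wv H v i} : Finset V)) = F)).card
        ≤ (Fintype.piFinset (fun _ : Fin 5 => F.biUnion id)).card := by
          refine card_le_card fun v hv => ?_
          rw [mem_filter] at hv
          rw [Fintype.mem_piFinset]
          intro i
          rw [mem_biUnion]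
          refine ⟨{v i, v (i + 1), wv H v i}, ?_, by simp⟩
          rw [← hv.2]
          exact mem_image_of_mem _ (mem_univ i)
      _ = (F.biUnion id).card ^ 5 := by simp
      _ ≤ 15 ^ 5 := Nat.pow_le_pow_left hcard 5

/-- if one coordinate is determined by the others there are at most `n ^ 4` functions. -/
lemma card_le_of_determined (D : Finset (Fin 5 → V)) (p : Fin 5)
    (h : ∀ v ∈ D, ∀ v' ∈ D, (∀ q, q ≠ p → v q = v' q) → v p = v' p) :
    D.card ≤ Fintype.card V ^ 4 := by
  have h1 : D.card ≤ (univ : Finset ({q : Fin 5 // q ≠ p} → V)).card := by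
    refine Finset.card_le_card_of_injOn (fun v q => v q) (fun _ _ => by simp) ?_
    intro v hv v' hv' heq
    have h2 : ∀ q, q ≠ p → v q = v' q := fun q hq => congrFun heq ⟨q, hq⟩
    funext q
    by_cases hq : q = p
    · rw [hq]; exact h v hv v' hv' h2
    · exact h2 q hq
  refine h1.trans (le_of_eq ?_)
  rw [Finset.card_univ, Fintype.card_fun]
  congr 1
  simp

lemma card_bad {H : Finset (Finset V)} (h3 : IsTripleSystem H) (hl : IsLinear H) :
    (bad H).card ≤ 75 * Fintype.card V ^ 4 := by
  classical
  set N := Fintype.card V ^ 4 with hN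
  have hw_eq : ∀ {v v' : Fin 5 → V} {i : Fin 5}, v i = v' i → v (i + 1) = v' (i + 1) →
      wv H v i = wv H v' i := by
    intro v v' i h1 h2
    unfold wv; rw [h1, h2]
  have hne1 : ∀ i : Fin 5, i ≠ i + 1 := by decide
  have D1 : ∀ i j : Fin 5, i ≠ j → ((walks H).filter (fun v => v i = v j)).card ≤ N := by
    intro i j hij
    refine card_le_of_determined _ i ?_
    intro v hv v' hv' heq
    rw [mem_filter] at hv hv'
    rw [hv.2, hv'.2]
    exact heq j hij.symm
  have D2 : ∀ i j : Fin 5, ((walks H).filter (fun v => v i = wv H v j)).card ≤ N := by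
    intro i j
    refine card_le_of_determined _ i ?_
    intro v hv v' hv' heq
    rw [mem_filter] at hv hv'
    have hc := ne_of_card3 (h3 _ (mem_walks hv.1 j))
    have hij : j ≠ i := by
      rintro rfl
      exact hc.2.1 hv.2
    have hij' : j + 1 ≠ i := by
      rintro rfl
      exact hc.2.2 hv.2
    rw [hv.2, hv'.2]
    exact hw_eq (heq j hij) (heq (j + 1) hij')
  have D3 : ∀ i j : Fin 5, j ≠ i → j + 1 ≠ i →
      ((walks H).filter (fun v => wv H v i = wv H v j)).card ≤ N := by
    intro i j hji hji'
    refine card_le_of_determined _ (j + 1) ?_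
    intro v hv v' hv' heq
    rw [mem_filter] at hv hv'
    have e1 : v i = v' i := heq i hji'.symm
    have e2 : v (i + 1) = v' (i + 1) := heq (i + 1) (fun h => hji (add_right_cancel h).symm)
    have e3 : v j = v' j := heq j (hne1 j)
    have e4 : wv H v j = wv H v' j := by
      rw [← hv.2, ← hv'.2]
      exact hw_eq e1 e2
    have m1 := mem_walks hv.1 j
    have m2 := mem_walks hv'.1 j
    rw [Finset.pair_comm] at m1 m2
    rw [← e3, ← e4] at m2
    exact third_unique h3 hl m1 m2
  -- cover
  have hcover : bad H ⊆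
      ((univ : Finset (Fin 5 × Fin 5)).filter (fun t => t.1 ≠ t.2)).biUnion
        (fun t => (walks H).filter (fun v => v t.1 = v t.2)) ∪
      ((univ : Finset (Fin 5 × Fin 5)).biUnion
        (fun t => (walks H).filter (fun v => v t.1 = wv H v t.2))) ∪
      ((univ : Finset (Fin 5 × Fin 5)).filter (fun t => t.2 ≠ t.1 ∧ t.2 + 1 ≠ t.1)).biUnion
        (fun t => (walks H).filter (fun v => wv H v t.1 = wv H v t.2)) := by
    intro v hv
    unfold bad at hv
    rw [mem_filter] at hv
    obtain ⟨hvw, hinj⟩ := hv
    rw [Function.Injective] at hinj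
    push Not at hinj
    obtain ⟨a, b, hab, hne⟩ := hinj
    simp only [mem_union, mem_biUnion, mem_filter, mem_univ, true_and]
    rcases a with i | i <;> rcases b with j | j
    · simp only [Sum.elim_inl] at hab
      exact Or.inl (Or.inl ⟨(i, j), fun h => hne (by simp only at h; rw [h]), hvw, hab⟩)
    · simp only [Sum.elim_inl, Sum.elim_inr] at hab
      exact Or.inl (Or.inr ⟨(i, j), hvw, hab⟩)
    · simp only [Sum.elim_inl, Sum.elim_inr] at hab
      exact Or.inl (Or.inr ⟨(j, i), hvw, hab.symm⟩)
    · simp only [Sum.elim_inr] at hab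
      have hij : j ≠ i := fun h => hne (by rw [h])
      by_cases h : j + 1 = i
      · have h' : i + 1 ≠ j := by
          rw [← h]; exact (by decide : ∀ j : Fin 5, j + 1 + 1 ≠ j) j
        exact Or.inr ⟨(j, i), ⟨hij.symm, h'⟩, hvw, hab.symm⟩
      · exact Or.inr ⟨(i, j), ⟨hij, h⟩, hvw, hab⟩
  have hc := card_le_card hcover
  have c1 : (((univ : Finset (Fin 5 × Fin 5)).filter (fun t => t.1 ≠ t.2)).biUnion
        (fun t => (walks H).filter (fun v => v t.1 = v t.2))).card ≤ 25 * N := by
    refine (card_biUnion_le_card_mul _ _ N fun t ht => ?_).trans ?_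
    · exact D1 _ _ (mem_filter.mp ht).2
    · exact Nat.mul_le_mul_right _ ((card_le_univ _).trans (by simp))
  have c2 : ((univ : Finset (Fin 5 × Fin 5)).biUnion
        (fun t => (walks H).filter (fun v => v t.1 = wv H v t.2))).card ≤ 25 * N := by
    refine (card_biUnion_le_card_mul _ _ N fun t ht => ?_).trans ?_
    · exact D2 _ _
    · exact Nat.mul_le_mul_right _ ((card_le_univ _).trans (by simp))
  have c3 : (((univ : Finset (Fin 5 × Fin 5)).filter
        (fun t => t.2 ≠ t.1 ∧ t.2 + 1 ≠ t.1)).biUnion
        (fun t => (walks H).filter (fun v => wv H v t.1 = wv H v t.2))).card ≤ 25 * N := by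
    refine (card_biUnion_le_card_mul _ _ N fun t ht => ?_).trans ?_
    · exact D3 _ _ (mem_filter.mp ht).2.1 (mem_filter.mp ht).2.2
    · exact Nat.mul_le_mul_right _ ((card_le_univ _).trans (by simp))
  have u1 := card_union_le
    (((univ : Finset (Fin 5 × Fin 5)).filter (fun t => t.1 ≠ t.2)).biUnion
        (fun t => (walks H).filter (fun v => v t.1 = v t.2)) ∪
      ((univ : Finset (Fin 5 × Fin 5)).biUnion
        (fun t => (walks H).filter (fun v => v t.1 = wv H v t.2))))
    (((univ : Finset (Fin 5 × Fin 5)).filter (fun t => t.2 ≠ t.1 ∧ t.2 + 1 ≠ t.1)).biUnion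
        (fun t => (walks H).filter (fun v => wv H v t.1 = wv H v t.2)))
  have u2 := card_union_le
    (((univ : Finset (Fin 5 × Fin 5)).filter (fun t => t.1 ≠ t.2)).biUnion
        (fun t => (walks H).filter (fun v => v t.1 = v t.2)))
      ((univ : Finset (Fin 5 × Fin 5)).biUnion
        (fun t => (walks H).filter (fun v => v t.1 = wv H v t.2)))
  omega

/-- closed walks are controlled by pentagons. -/
theorem W5_le {H : Finset (Finset V)} (h3 : IsTripleSystem H) (hl : IsLinear H) :
    W5 (tw H) ≤ 15 ^ 5 * (pentagonCount H : ℝ) + 75 * (Fintype.card V : ℝ) ^ 4 := by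
  have h1 := W5_le_walks h3 hl
  have h2 := card_walks H
  have h4 := card_good h3
  have h5 := card_bad h3 hl
  have h6 : (walks H).card ≤ 15 ^ 5 * pentagonCount H + 75 * Fintype.card V ^ 4 := by omega
  refine h1.trans ?_
  exact_mod_cast h6

end Walks

end Pool.Agent.Lib.MP_86e34a_co
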