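import Pool.Agent.Lib.MP_86e34a_co.Core

set_option autoImplicit false
set_option linter.unusedSectionVars false

namespace Pool.Agent.Lib.MP_86e34a_co

open Finset
open scoped BigOperators

section Weighted

variable {V : Type} [Fintype V]

/-- shadow adjacency of a weighted triple system. -/
noncomputable def sh (T : V → V → V → ℝ) (x y : V) : ℝ := ∑ z, T x y z

/-- degree. -/
noncomputable def dg (T : V → V → V → ℝ) (x : V) : ℝ := ∑ y, sh T x y

/-- codegree. -/
noncomputable def gg (T : V → V → V → ℝ) (z x : V) : ℝ := ∑ u, sh T z u * sh T u x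

/-- auxiliary kernel. -/
noncomputable def ee (T : V → V → V → ℝ) (z x y : V) : ℝ := ∑ u, T x y u * sh T z u

/-- closed walks of length five. -/
noncomputable def W5 (T : V → V → V → ℝ) : ℝ := ∑ z, ∑ x, ∑ y, sh T x y * (gg T z x * gg T z y)

/-- weighted linear triple systems. -/
structure IsTS (T : V → V → V → ℝ) : Prop where
  nonneg : ∀ x y z, 0 ≤ T x y z
  symm12 : ∀ x y z, T x y z = T y x z
  symm23 : ∀ x y z, T x y z = T x z y
  le_one : ∀ x y, sh T x y ≤ 1

variable {T : V → V → V → ℝ}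

lemma IsTS.sh_nonneg (h : IsTS T) (x y : V) : 0 ≤ sh T x y :=
  Finset.sum_nonneg fun z _ => h.nonneg x y z

lemma IsTS.sh_symm (h : IsTS T) (x y : V) : sh T x y = sh T y x :=
  Finset.sum_congr rfl fun z _ => h.symm12 x y z

lemma IsTS.dg_nonneg (h : IsTS T) (x : V) : 0 ≤ dg T x :=
  Finset.sum_nonneg fun y _ => h.sh_nonneg x y

lemma IsTS.gg_nonneg (h : IsTS T) (z x : V) : 0 ≤ gg T z x :=
  Finset.sum_nonneg fun u _ => mul_nonneg (h.sh_nonneg z u) (h.sh_nonneg u x)

lemma IsTS.ee_nonneg (h : IsTS T) (z x y : V) : 0 ≤ ee T z x y :=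
  Finset.sum_nonneg fun u _ => mul_nonneg (h.nonneg x y u) (h.sh_nonneg z u)

lemma IsTS.ee_symm (h : IsTS T) (z x y : V) : ee T z x y = ee T z y x :=
  Finset.sum_congr rfl fun u _ => by rw [h.symm12 x y u]

lemma IsTS.ee_row (h : IsTS T) (z x : V) : ∑ y, ee T z x y = gg T z x := by
  unfold ee gg
  rw [Finset.sum_comm]
  refine Finset.sum_congr rfl fun u _ => ?_
  rw [← Finset.sum_mul, mul_comm]
  congr 1
  rw [h.sh_symm u x]
  exact Finset.sum_congr rfl fun y _ => h.symm23 x y u

lemma IsTS.ee_le (h : IsTS T) (z x y : V) : ee T z x y ≤ sh T x y :=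
  Finset.sum_le_sum fun u _ => mul_le_of_le_one_right (h.nonneg x y u) (h.le_one z u)

lemma IsTS.ee_cell (h : IsTS T) {D : ℝ} (hD : ∀ x, dg T x ≤ D) (P : V → Prop) [DecidablePred P]
    (x y : V) : ∑ z, (if P z then ee T z x y else 0) ≤ D * sh T x y := by
  have h1 : ∑ z, (if P z then ee T z x y else 0) ≤ ∑ z, ee T z x y := by
    refine Finset.sum_le_sum fun z _ => ?_
    split_ifs
    · exact le_rfl
    · exact h.ee_nonneg z x y
  refine h1.trans ?_
  unfold ee
  rw [Finset.sum_comm]
  have h2 : ∀ u, ∑ z, T x y u * sh T z u ≤ D * T x y u := by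
    intro u
    rw [← Finset.mul_sum, mul_comm D]
    refine mul_le_mul_of_nonneg_left ?_ (h.nonneg x y u)
    refine le_trans (le_of_eq ?_) (hD u)
    exact Finset.sum_congr rfl fun z _ => h.sh_symm z u
  refine (Finset.sum_le_sum fun u _ => h2 u).trans ?_
  rw [← Finset.mul_sum]
  exact le_rfl

lemma IsTS.sum_gg (h : IsTS T) : ∑ z, ∑ x, gg T z x = ∑ u, dg T u ^ 2 := by
  unfold gg
  have : ∀ z, ∑ x, ∑ u, sh T z u * sh T u x = ∑ u, sh T z u * dg T u := by
    intro z
    rw [Finset.sum_comm]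
    exact Finset.sum_congr rfl fun u _ => by rw [← Finset.mul_sum]; rfl
  simp only [this]
  rw [Finset.sum_comm]
  refine Finset.sum_congr rfl fun u _ => ?_
  rw [← Finset.sum_mul, sq]
  congr 1
  exact Finset.sum_congr rfl fun z _ => h.sh_symm z u

/-- degree bound from the number of closed walks. -/
lemma IsTS.degree_bound [Nonempty V] (h : IsTS T) :
    (∑ u, dg T u ^ 2) ^ 3 ≤ 32 * (Fintype.card V : ℝ) ^ 4 * W5 T := by
  have hn : (0 : ℝ) < Fintype.card V := by exact_mod_cast Fintype.card_pos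
  set n : ℝ := (Fintype.card V : ℝ) with hnn
  set G : ℝ := ∑ u, dg T u ^ 2 with hG
  have hG0 : 0 ≤ G := Finset.sum_nonneg fun u _ => sq_nonneg _
  set τ : ℝ := G / (4 * n ^ 2) with hτ
  have hτ0 : 0 ≤ τ := by positivity
  have h1 : ∀ z x y, τ ^ 2 * (ee T z x y - ee T z x y * (if gg T z x < τ then 1 else 0) -
      ee T z x y * (if gg T z y < τ then 1 else 0)) ≤ sh T x y * (gg T z x * gg T z y) := by
    intro z x y
    have he := h.ee_nonneg z x y
    have hx := h.gg_nonneg z x
    have hy := h.gg_nonneg z y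
    have hsh := h.sh_nonneg x y
    have hle := h.ee_le z x y
    have hnn : 0 ≤ sh T x y * (gg T z x * gg T z y) := by positivity
    have ha2 : 0 ≤ τ ^ 2 := by positivity
    split_ifs with h2 h3 h3
    · have : τ ^ 2 * (ee T z x y - ee T z x y * 1 - ee T z x y * 1) = -(τ ^ 2 * ee T z x y) := by
        ring
      rw [this]
      have : 0 ≤ τ ^ 2 * ee T z x y := by positivity
      linarith
    · have : τ ^ 2 * (ee T z x y - ee T z x y * 1 - ee T z x y * 0) = 0 := by ring
      rw [this]; exact hnn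
    · have : τ ^ 2 * (ee T z x y - ee T z x y * 0 - ee T z x y * 1) = 0 := by ring
      rw [this]; exact hnn
    · push Not at h2 h3
      have h4 : τ ^ 2 ≤ gg T z x * gg T z y := by
        rw [sq]; exact mul_le_mul h2 h3 hτ0 hx
      have h5 : ee T z x y * τ ^ 2 ≤ sh T x y * (gg T z x * gg T z y) :=
        mul_le_mul hle h4 ha2 hsh
      linarith
  have h2 : τ ^ 2 * (G - 2 * (n ^ 2 * τ)) ≤ W5 T := by
    have h3 : ∑ z, ∑ x, ∑ y, τ ^ 2 * (ee T z x y - ee T z x y * (if gg T z x < τ then 1 else 0) -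
      ee T z x y * (if gg T z y < τ then 1 else 0)) ≤ W5 T :=
      Finset.sum_le_sum fun z _ => Finset.sum_le_sum fun x _ => Finset.sum_le_sum fun y _ =>
        h1 z x y
    refine le_trans ?_ h3
    simp only [← Finset.mul_sum, Finset.sum_sub_distrib]
    refine mul_le_mul_of_nonneg_left ?_ (by positivity)
    have a1 : ∑ z, ∑ x, ∑ y, ee T z x y = G := by
      simp only [h.ee_row]; exact h.sum_gg
    have a2 : ∑ z, ∑ x, ∑ y, ee T z x y * (if gg T z x < τ then 1 else 0) ≤ n ^ 2 * τ := by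
      have : ∀ z x, ∑ y, ee T z x y * (if gg T z x < τ then 1 else 0) ≤ τ := by
        intro z x
        rw [← Finset.sum_mul, h.ee_row]
        split_ifs with hlt
        · linarith
        · linarith
      refine (Finset.sum_le_sum fun z _ => Finset.sum_le_sum fun x _ => this z x).trans ?_
      simp only [Finset.sum_const, nsmul_eq_mul, Finset.card_univ]
      rw [← hnn]
      nlinarith
    have a3 : ∑ z, ∑ x, ∑ y, ee T z x y * (if gg T z y < τ then 1 else 0) =
        ∑ z, ∑ x, ∑ y, ee T z x y * (if gg T z x < τ then 1 else 0) := by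
      refine Finset.sum_congr rfl fun z _ => ?_
      rw [Finset.sum_comm]
      refine Finset.sum_congr rfl fun x _ => Finset.sum_congr rfl fun y _ => ?_
      rw [h.ee_symm z y x]
    rw [a1, a3]
    linarith
  have h3 : τ ^ 2 * (G - 2 * (n ^ 2 * τ)) = G ^ 3 / (32 * n ^ 4) := by
    rw [hτ]; field_simp; ring
  rw [h3, div_le_iff₀ (by positivity)] at h2
  linarith

/-- the normalised system. -/
theorem IsTS.isSys [Nonempty V] (h : IsTS T) {C Λ₀ s : ℝ} (hs : 0 < s)
    (hsum : s * Fintype.card V ≤ ∑ x, ∑ y, sh T x y) (hdeg : ∀ x, dg T x ≤ Λ₀ * s)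
    (hW : W5 T ≤ C * (s / Fintype.card V) * s ^ 5) :
    IsSys C Λ₀ (fun x y => sh T x y * (Fintype.card V / s))
      (fun z x y => ee T z x y * (Fintype.card V / s) ^ 2) := by
  have hn : (0 : ℝ) < Fintype.card V := by exact_mod_cast Fintype.card_pos
  have hkk : ∀ z x, kk (fun x y => sh T x y * (Fintype.card V / s)) z x =
      gg T z x * (Fintype.card V / s ^ 2) := by
    intro z x
    unfold kk gg
    rw [Fintype.expect_eq_sum_div_card, Finset.sum_mul, Finset.sum_div]
    refine Finset.sum_congr rfl fun u _ => ?_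
    field_simp
  refine ⟨inferInstance, ?_, ?_, ?_, ?_, ?_, ?_, ?_, ?_, ?_⟩
  · intro x y
    have := h.sh_nonneg x y
    positivity
  · intro x y
    simp only [h.sh_symm x y]
  · intro x
    rw [← Finset.expect_mul, Fintype.expect_eq_sum_div_card]
    have h1 : (∑ y, sh T x y) / Fintype.card V * (Fintype.card V / s) = dg T x / s := by
      unfold dg; field_simp
    rw [h1, div_le_iff₀ hs]
    exact hdeg x
  · intro z x y
    have := h.ee_nonneg z x y
    positivity
  · intro z x y
    simp only [h.ee_symm z x y]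
  · intro z x
    rw [hkk, ← Finset.expect_mul, Fintype.expect_eq_sum_div_card, h.ee_row]
    field_simp
  · intro P _ x y
    have h1 : ∀ z, (if P z then ee T z x y * ((Fintype.card V : ℝ) / s) ^ 2 else 0) =
        (if P z then ee T z x y else 0) * ((Fintype.card V : ℝ) / s) ^ 2 := by
      intro z; split_ifs <;> simp
    simp only [h1]
    rw [← Finset.expect_mul, Fintype.expect_eq_sum_div_card]
    have h2 := h.ee_cell hdeg P x y
    calc (∑ z, (if P z then ee T z x y else 0)) / Fintype.card V *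
          ((Fintype.card V : ℝ) / s) ^ 2
        ≤ (Λ₀ * s * sh T x y) / Fintype.card V * ((Fintype.card V : ℝ) / s) ^ 2 := by
          gcongr
      _ = Λ₀ * (sh T x y * (Fintype.card V / s)) := by field_simp
  · simp only [hkk]
    have h1 : ∀ z x y, ee T z x y * ((Fintype.card V : ℝ) / s) ^ 2 *
        (gg T z x * (Fintype.card V / s ^ 2) * (gg T z y * (Fintype.card V / s ^ 2))) ≤
        (sh T x y * (gg T z x * gg T z y)) * ((Fintype.card V : ℝ) ^ 4 / s ^ 6) := by
      intro z x y
      have a1 := h.gg_nonneg z x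
      have a2 := h.gg_nonneg z y
      have a3 := h.ee_le z x y
      calc ee T z x y * ((Fintype.card V : ℝ) / s) ^ 2 *
        (gg T z x * (Fintype.card V / s ^ 2) * (gg T z y * (Fintype.card V / s ^ 2)))
          = ee T z x y * ((gg T z x * gg T z y) * ((Fintype.card V : ℝ) ^ 4 / s ^ 6)) := by
            field_simp
        _ ≤ sh T x y * ((gg T z x * gg T z y) * ((Fintype.card V : ℝ) ^ 4 / s ^ 6)) :=
            mul_le_mul_of_nonneg_right a3 (by positivity)
        _ = _ := by ring
    refine (ex_mono fun z => ex_mono fun x => ex_mono fun y => h1 z x y).trans ?_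
    simp only [← Finset.expect_mul, Fintype.expect_eq_sum_div_card, ← Finset.sum_div]
    change W5 T / _ / _ / _ * _ ≤ C
    calc W5 T / Fintype.card V / Fintype.card V / Fintype.card V *
          ((Fintype.card V : ℝ) ^ 4 / s ^ 6)
        ≤ (C * (s / Fintype.card V) * s ^ 5) / Fintype.card V / Fintype.card V /
          Fintype.card V * ((Fintype.card V : ℝ) ^ 4 / s ^ 6) := by gcongr
      _ = C := by field_simp
  · simp only [hkk]
    simp only [← Finset.expect_mul, Fintype.expect_eq_sum_div_card, ← Finset.sum_div]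
    rw [h.sum_gg]
    have h1 : (∑ x, dg T x) ^ 2 ≤ Fintype.card V * ∑ x, dg T x ^ 2 := by
      have := sq_sum_le_card_mul_sum_sq (s := (univ : Finset V)) (f := dg T)
      simpa using this
    have h2 : s * Fintype.card V ≤ ∑ x, dg T x := hsum
    have h3 : (s * Fintype.card V) ^ 2 ≤ Fintype.card V * ∑ x, dg T x ^ 2 :=
      (pow_le_pow_left₀ (by positivity) h2 2).trans h1
    have h4 : s ^ 2 * Fintype.card V ≤ ∑ x, dg T x ^ 2 := by
      have : (Fintype.card V : ℝ) * (s ^ 2 * Fintype.card V) ≤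
          Fintype.card V * ∑ x, dg T x ^ 2 := by
        calc (Fintype.card V : ℝ) * (s ^ 2 * Fintype.card V) = (s * Fintype.card V) ^ 2 := by ring
          _ ≤ _ := h3
      exact le_of_mul_le_mul_left this hn
    calc (1 : ℝ) = (s ^ 2 * Fintype.card V) / Fintype.card V / Fintype.card V *
          (Fintype.card V / s ^ 2) := by field_simp
      _ ≤ (∑ x, dg T x ^ 2) / Fintype.card V / Fintype.card V *
          (Fintype.card V / s ^ 2) := by gcongr

lemma t5_eq [Nonempty V] (T : V → V → V → ℝ) {s : ℝ} (hs : 0 < s) :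
    𝔼 z, 𝔼 x, 𝔼 y, (sh T x y * (Fintype.card V / s)) *
      (kk (fun x y => sh T x y * (Fintype.card V / s)) z x *
        kk (fun x y => sh T x y * (Fintype.card V / s)) z y) = W5 T / s ^ 5 := by
  have hn : (0 : ℝ) < Fintype.card V := by exact_mod_cast Fintype.card_pos
  have hkk : ∀ z x, kk (fun x y => sh T x y * (Fintype.card V / s)) z x =
      gg T z x * (Fintype.card V / s ^ 2) := by
    intro z x
    unfold kk gg
    rw [Fintype.expect_eq_sum_div_card, Finset.sum_mul, Finset.sum_div]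
    refine Finset.sum_congr rfl fun u _ => ?_
    field_simp
  simp only [hkk]
  have h1 : ∀ z x y, sh T x y * (Fintype.card V / s) *
      (gg T z x * (Fintype.card V / s ^ 2) * (gg T z y * (Fintype.card V / s ^ 2))) =
      (sh T x y * (gg T z x * gg T z y)) * ((Fintype.card V : ℝ) ^ 3 / s ^ 5) := by
    intro z x y; field_simp
  simp only [h1, ← Finset.expect_mul, Fintype.expect_eq_sum_div_card, ← Finset.sum_div]
  change W5 T / _ / _ / _ * _ = _
  field_simp

theorem core_weighted (C Λ₀ : ℝ) (hC : 1 ≤ C) (hΛ₀ : 1 ≤ Λ₀) : ∃ c : ℝ, 0 < c ∧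
    ∀ (V : Type) [Fintype V] [Nonempty V] (T : V → V → V → ℝ) (s : ℝ), IsTS T → 0 < s →
      s * Fintype.card V ≤ ∑ x, ∑ y, sh T x y → (∀ x, dg T x ≤ Λ₀ * s) →
      W5 T ≤ C * (s / Fintype.card V) * s ^ 5 → c * s ^ 5 ≤ W5 T := by
  obtain ⟨c, hc, h⟩ := core C Λ₀ hC hΛ₀
  refine ⟨c, hc, fun V _ _ T s hT hs hsum hdeg hW => ?_⟩
  have h1 := h V _ _ (hT.isSys hs hsum hdeg hW)
  rw [t5_eq T hs, le_div_iff₀ (by positivity)] at h1
  exact h1

/-- restriction to low degree vertices. -/
noncomputable def restr (T : V → V → V → ℝ) (D : ℝ) (x y z : V) : ℝ :=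
  if dg T x ≤ D ∧ dg T y ≤ D ∧ dg T z ≤ D then T x y z else 0

lemma restr_le (h : IsTS T) (D : ℝ) (x y z : V) : restr T D x y z ≤ T x y z := by
  unfold restr
  split_ifs
  · exact le_rfl
  · exact h.nonneg x y z

lemma restr_sh_le (h : IsTS T) (D : ℝ) (x y : V) : sh (restr T D) x y ≤ sh T x y :=
  Finset.sum_le_sum fun z _ => restr_le h D x y z

lemma restr_isTS (h : IsTS T) (D : ℝ) : IsTS (restr T D) := by
  refine ⟨?_, ?_, ?_, ?_⟩
  · intro x y z
    unfold restr
    split_ifs
    · exact h.nonneg x y z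
    · exact le_rfl
  · intro x y z
    unfold restr
    rw [h.symm12 x y z]
    congr 1
    exact propext ⟨fun ⟨a, b, c⟩ => ⟨b, a, c⟩, fun ⟨a, b, c⟩ => ⟨b, a, c⟩⟩
  · intro x y z
    unfold restr
    rw [h.symm23 x y z]
    congr 1
    exact propext ⟨fun ⟨a, b, c⟩ => ⟨a, c, b⟩, fun ⟨a, b, c⟩ => ⟨a, c, b⟩⟩
  · intro x y
    exact (restr_sh_le h D x y).trans (h.le_one x y)

lemma restr_dg (h : IsTS T) {D : ℝ} (hD : 0 ≤ D) (x : V) : dg (restr T D) x ≤ D := by
  by_cases hx : dg T x ≤ D
  · refine le_trans ?_ hx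
    exact Finset.sum_le_sum fun y _ => restr_sh_le h D x y
  · refine le_trans (le_of_eq ?_) hD
    unfold dg sh
    refine Finset.sum_eq_zero fun y _ => Finset.sum_eq_zero fun z _ => ?_
    unfold restr
    rw [if_neg]
    tauto

lemma restr_W5 (h : IsTS T) (D : ℝ) : W5 (restr T D) ≤ W5 T := by
  have hr := restr_isTS h D
  have hg : ∀ z x, gg (restr T D) z x ≤ gg T z x := by
    intro z x
    refine Finset.sum_le_sum fun u _ => ?_
    exact mul_le_mul (restr_sh_le h D _ _) (restr_sh_le h D _ _) (hr.sh_nonneg _ _)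
      (h.sh_nonneg _ _)
  refine Finset.sum_le_sum fun z _ => Finset.sum_le_sum fun x _ => Finset.sum_le_sum fun y _ => ?_
  refine mul_le_mul (restr_sh_le h D _ _) ?_ (mul_nonneg (hr.gg_nonneg _ _) (hr.gg_nonneg _ _))
    (h.sh_nonneg _ _)
  exact mul_le_mul (hg _ _) (hg _ _) (hr.gg_nonneg _ _) (h.gg_nonneg _ _)

lemma restr_sum (h : IsTS T) {D : ℝ} (hD : 0 < D) :
    (∑ x, ∑ y, sh T x y) - 3 * ((∑ u, dg T u ^ 2) / D) ≤ ∑ x, ∑ y, sh (restr T D) x y := by
  set ι : V → ℝ := fun x => if dg T x ≤ D then 0 else 1 with hι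
  have hι0 : ∀ x, 0 ≤ ι x := by intro x; simp only [hι]; split_ifs <;> norm_num
  have h1 : ∀ x y z, T x y z - (ι x * T x y z + ι y * T x y z + ι z * T x y z) ≤
      restr T D x y z := by
    intro x y z
    have hT := h.nonneg x y z
    simp only [hι]
    unfold restr
    split_ifs <;> first | linarith | (exfalso; tauto)
  have h2 : ∑ x, ∑ y, ∑ z, (T x y z - (ι x * T x y z + ι y * T x y z + ι z * T x y z)) ≤
      ∑ x, ∑ y, sh (restr T D) x y :=
    Finset.sum_le_sum fun x _ => Finset.sum_le_sum fun y _ => Finset.sum_le_sum fun z _ =>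
      h1 x y z
  refine le_trans ?_ h2
  simp only [Finset.sum_sub_distrib, Finset.sum_add_distrib]
  have a1 : ∑ x, ∑ y, ∑ z, ι x * T x y z = ∑ x, ι x * dg T x := by
    refine Finset.sum_congr rfl fun x _ => ?_
    unfold dg sh
    simp only [Finset.mul_sum]
  have a2 : ∑ x, ∑ y, ∑ z, ι y * T x y z = ∑ x, ι x * dg T x := by
    rw [Finset.sum_comm, ← a1]
    refine Finset.sum_congr rfl fun x _ => Finset.sum_congr rfl fun y _ =>
      Finset.sum_congr rfl fun z _ => ?_
    rw [h.symm12 y x z]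
  have a3 : ∑ x, ∑ y, ∑ z, ι z * T x y z = ∑ x, ι x * dg T x := by
    rw [← a2]
    refine Finset.sum_congr rfl fun x _ => ?_
    rw [Finset.sum_comm]
    refine Finset.sum_congr rfl fun y _ => Finset.sum_congr rfl fun z _ => ?_
    rw [h.symm23 x z y]
  have a4 : ∑ x, ι x * dg T x ≤ (∑ u, dg T u ^ 2) / D := by
    rw [Finset.sum_div]
    refine Finset.sum_le_sum fun x _ => ?_
    have hd := h.dg_nonneg x
    simp only [hι]
    split_ifs with hx
    · have : 0 ≤ dg T x ^ 2 / D := by positivity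
      linarith
    · push Not at hx
      rw [one_mul, le_div_iff₀ hD, sq]
      exact mul_le_mul_of_nonneg_left hx.le hd
  rw [a1, a2, a3]
  have : ∑ x, ∑ y, ∑ z, T x y z = ∑ x, ∑ y, sh T x y := rfl
  rw [this]
  linarith

/-- Few closed walks force positive density. -/
theorem density_bound (C : ℝ) (hC : 1 ≤ C) : ∃ c : ℝ, 0 < c ∧
    ∀ (V : Type) [Fintype V] [Nonempty V] (T : V → V → V → ℝ) (s : ℝ), IsTS T → 0 < s →
      s * Fintype.card V ≤ ∑ x, ∑ y, sh T x y →
      W5 T ≤ C * (s / Fintype.card V) * s ^ 5 → c ≤ s / Fintype.card V := by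
  obtain ⟨c, hc, h⟩ := core_weighted (64 * C) (384 * C) (by linarith) (by linarith)
  have hCp : 0 < C := by linarith
  refine ⟨c / (32 * C), by positivity, fun V _ _ T s hT hs hsum hW => ?_⟩
  have hn : (0 : ℝ) < Fintype.card V := by exact_mod_cast Fintype.card_pos
  set n : ℝ := (Fintype.card V : ℝ) with hn'
  set D : ℝ := 192 * C * s with hD
  have hDp : 0 < D := by positivity
  set G : ℝ := ∑ u, dg T u ^ 2 with hG
  have hG0 : 0 ≤ G := Finset.sum_nonneg fun u _ => sq_nonneg _
  have hGle : G ≤ 32 * C * n * s ^ 2 := by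
    have h1 := hT.degree_bound
    have h2 : G ^ 3 ≤ (32 * C * n * s ^ 2) ^ 3 := by
      calc G ^ 3 ≤ 32 * n ^ 4 * W5 T := h1
        _ ≤ 32 * n ^ 4 * (C * (s / n) * s ^ 5) := by gcongr
        _ = (32 * C) * (n ^ 3 * s ^ 6) := by field_simp
        _ ≤ (32 * C) ^ 3 * (n ^ 3 * s ^ 6) := by
            refine mul_le_mul_of_nonneg_right ?_ (by positivity)
            exact le_self_pow₀ (by linarith) (by norm_num)
        _ = (32 * C * n * s ^ 2) ^ 3 := by ring
    exact le_of_pow_le_pow_left₀ (by norm_num) (by positivity) h2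
  have hsum' : s / 2 * n ≤ ∑ x, ∑ y, sh (restr T D) x y := by
    have h1 := restr_sum hT hDp
    have h2 : G / D ≤ n * s / 6 := by
      rw [div_le_iff₀ hDp, hD]
      calc G ≤ 32 * C * n * s ^ 2 := hGle
        _ = n * s / 6 * (192 * C * s) := by ring
    linarith
  have hdeg : ∀ x, dg (restr T D) x ≤ 384 * C * (s / 2) := by
    intro x
    refine (restr_dg hT hDp.le x).trans (le_of_eq ?_)
    rw [hD]; ring
  have hW5 := restr_W5 hT D
  have hW' : W5 (restr T D) ≤ 64 * C * (s / 2 / n) * (s / 2) ^ 5 := by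
    refine (hW5.trans hW).trans (le_of_eq ?_)
    field_simp; norm_num
  have h3 := h V (restr T D) (s / 2) (restr_isTS hT D) (by positivity) hsum' hdeg hW'
  have h4 : c * (s / 2) ^ 5 ≤ C * (s / n) * s ^ 5 := h3.trans (hW5.trans hW)
  have h5 : c / 32 * s ^ 5 ≤ C * (s / n) * s ^ 5 := by
    refine le_trans (le_of_eq ?_) h4
    ring
  have h6 : c / 32 ≤ C * (s / n) := le_of_mul_le_mul_right h5 (by positivity)
  rw [div_le_iff₀ (by positivity)]
  linarith

end Weighted

end Pool.Agent.Lib.MP_86e34a_co
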